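import Pool.Agent.Helper14.UE.Cls
import Pool.Agent.Helper66.TG.Blow

/-!
PIECE UE-9: the blow-up inherits the condition `HB`.

PROOF. `K ⊆ V × Fin 5` finite, `K₀ := Prod.fst '' K`.  (1) If `W` is finite, `TE G W`, then `W ×ˢ univ` is `TE (blow G c)`: let `A` be a nonempty proper subset.  If
some fibre `{v} ×ˢ univ`, `v ∈ W`, is split by `A`: the complete graph on the five points `(v, i)` gives at least `4` edges (`fin5_cut`, as in
`blow_four`).  Otherwise `A = A₀ ×ˢ univ`, `A₀ := {v | (v, 0) ∈ A}`, and the edges `(u, 0) - (w, 0)` of the `3` edges between `A₀` and `W \ A₀` (`blow_zero`).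
(2) `{v, c v} ×ˢ univ` is `TE (blow G c)`: if no fibre is split the five edges `(v, i) - (c v, i)`.
(3) For adjacent `p`, `q` of the blow-up with `p.1 ∉ K₀`, `q.1 ∉ K₀`: if `p.1 = q.1`: `{p.1} ×ˢ univ`; if `p.2 = q.2 = 0`, `G.Adj p.1 q.1` and `Rel G K₀ p.1 q.1`: (1);
if `c p.1 = q.1` or `c q.1 = p.1`: (2).  So the exceptional pairs are: pairs with `p.1 ∈ K₀` or `q.1 ∈ K₀` (finitely many, `blow_lf`), and the pairs
`((u, 0), (w, 0))`, `(u, w)` exceptional for `G` and `K₀`.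
-/

open Set

namespace Pool.H14.UE

open Pool.H66.HC Pool.H66.TG

universe u

variable {V : Type u} {G : SimpleGraph V} {c : V → V}

private lemma hb_split (hc : Ctr G c) (hlf : ∀ v, (G.neighborSet v).Finite) {W : Set V}
    (hW : W.Finite) {A : Set (V × Fin 5)} (hA : A ⊆ W ×ˢ univ) {v : V} {i j : Fin 5}
    (hi : (v, i) ∈ A) (hj : (v, j) ∉ A) :
    3 ≤ ce (blow G c) A ((W ×ˢ univ) \ A) := by
  classical
  have fA : A.Finite := (hW.prod finite_univ).subset hA
  have hfin := prs_finite (blow_lf hc hlf) fA ((W ×ˢ univ) \ A)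
  have hv : v ∈ W := (hA hi).1
  let A' : Finset (Fin 5) := Finset.univ.filter fun k => (v, k) ∈ A
  have hA1 : A'.Nonempty := ⟨i, by simp [A', hi]⟩
  have hA2 : A'ᶜ.Nonempty := ⟨j, by simp [A', hj]⟩
  have h2 := fin5_cut A' hA1 hA2
  rw [← Finset.card_product] at h2
  refine le_trans (by norm_num : 3 ≤ 4) (h2.trans ?_)
  unfold ce
  rw [← Set.ncard_coe_finset]
  have hinj : Function.Injective
      (fun p : Fin 5 × Fin 5 => (((v, p.1), (v, p.2)) : (V × Fin 5) × (V × Fin 5))) := by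
    intro p q hpq
    simp only [Prod.mk.injEq, true_and] at hpq
    exact Prod.ext hpq.1 hpq.2
  rw [← Set.ncard_image_of_injective _ hinj]
  apply Set.ncard_le_ncard _ hfin
  rintro _ ⟨p, hp, rfl⟩
  simp only [Finset.coe_product, Set.mem_prod, Finset.mem_coe, Finset.mem_compl,
    Finset.mem_filter, Finset.mem_univ, true_and, A'] at hp
  refine ⟨hp.1, ⟨⟨hv, mem_univ _⟩, hp.2⟩, blow_clique v ?_⟩
  intro h
  rw [h] at hp
  exact hp.2 hp.1

private lemma hb_te (hc : Ctr G c) (hlf : ∀ v, (G.neighborSet v).Finite) {W : Set V}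
    (hW : W.Finite) (h : ∀ A₀ ⊆ W, A₀.Nonempty → A₀ ≠ W →
      3 ≤ ce (blow G c) (A₀ ×ˢ univ) ((W \ A₀) ×ˢ univ)) :
    TE (blow G c) (W ×ˢ univ) := by
  intro A hA hne hneq
  by_cases h1 : ∃ v i j, (v, i) ∈ A ∧ (v, j) ∉ A
  · obtain ⟨v, i, j, hi, hj⟩ := h1
    exact hb_split hc hlf hW hA hi hj
  · push Not at h1
    have hall : ∀ v (i j : Fin 5), (v, i) ∈ A → (v, j) ∈ A := h1
    have e1 : ({v | (v, 0) ∈ A} : Set V) ×ˢ (univ : Set (Fin 5)) = A := by
      ext ⟨v, i⟩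
      exact ⟨fun hv => hall v 0 i hv.1, fun hv => ⟨hall v i 0 hv, mem_univ _⟩⟩
    have e2 : (W \ {v | (v, 0) ∈ A}) ×ˢ (univ : Set (Fin 5)) = (W ×ˢ univ) \ A := by
      ext ⟨v, i⟩
      constructor
      · rintro ⟨⟨hv, hv'⟩, -⟩
        exact ⟨⟨hv, mem_univ _⟩, fun hh => hv' (hall v i 0 hh)⟩
      · rintro ⟨⟨hv, -⟩, hv'⟩
        exact ⟨⟨hv, fun hh => hv' (hall v 0 i hh)⟩, mem_univ _⟩
    have h3 := h {v | (v, 0) ∈ A} (fun v hv => (hA hv).1) (by
      obtain ⟨⟨v, i⟩, hv⟩ := hne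
      exact ⟨v, hall v i 0 hv⟩) (by
      intro he
      apply hneq
      rw [← e1, he])
    rwa [e1, e2] at h3

private lemma hb_te_zero (hc : Ctr G c) (hlf : ∀ v, (G.neighborSet v).Finite) {W : Set V}
    (hW : W.Finite) (hT : TE G W) : TE (blow G c) (W ×ˢ univ) := by
  refine hb_te hc hlf hW fun A₀ hA hne hneq => (hT A₀ hA hne hneq).trans ?_
  have hfin := prs_finite (blow_lf hc hlf) ((hW.subset hA).prod (finite_univ (α := Fin 5)))
    ((W \ A₀) ×ˢ univ)
  have hinj : Function.Injective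
      (fun p : V × V => (((p.1, 0), (p.2, 0)) : (V × Fin 5) × (V × Fin 5))) := by
    intro p q hpq
    simp only [Prod.mk.injEq, and_true] at hpq
    exact Prod.ext hpq.1 hpq.2
  unfold ce
  rw [← Set.ncard_image_of_injective _ hinj]
  apply Set.ncard_le_ncard _ hfin
  rintro _ ⟨p, hp, rfl⟩
  exact ⟨⟨hp.1, mem_univ _⟩, ⟨hp.2.1, mem_univ _⟩, blow_zero hp.2.2⟩

private lemma hb_te_star (hc : Ctr G c) (hlf : ∀ v, (G.neighborSet v).Finite) {v w : V}
    (hvw : v ≠ w) (h : c v = w) : TE (blow G c) (({v, w} : Set V) ×ˢ univ) := by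
  have hadj : ∀ i : Fin 5, (blow G c).Adj (v, i) (w, i) := fun i =>
    Or.inr (Or.inr ⟨rfl, hvw, Or.inl h⟩)
  refine hb_te hc hlf (Set.toFinite _) fun A₀ hA hne hneq => ?_
  have hfin := prs_finite (blow_lf hc hlf)
    (((Set.toFinite ({v, w} : Set V)).subset hA).prod (finite_univ (α := Fin 5)))
    ((({v, w} : Set V) \ A₀) ×ˢ univ)
  have hcard : (5 : ℕ) ≤ (prs (blow G c) (A₀ ×ˢ univ)
      ((({v, w} : Set V) \ A₀) ×ˢ univ)).ncard := by
    by_cases hv : v ∈ A₀
    · have hw : w ∉ A₀ := by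
        intro hw
        apply hneq
        refine hA.antisymm ?_
        rintro x (rfl | rfl)
        · exact hv
        · exact hw
      have hinj : Function.Injective
          (fun i : Fin 5 => (((v, i), (w, i)) : (V × Fin 5) × (V × Fin 5))) := by
        intro i j hij
        simp only [Prod.mk.injEq, true_and] at hij
        exact hij.1
      have : (5 : ℕ) = ((fun i : Fin 5 => (((v, i), (w, i)) :
          (V × Fin 5) × (V × Fin 5))) '' univ).ncard := by
        rw [Set.ncard_image_of_injective _ hinj, Set.ncard_univ]; simp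
      refine this.le.trans ?_
      apply Set.ncard_le_ncard _ hfin
      rintro _ ⟨i, _, rfl⟩
      exact ⟨⟨hv, mem_univ _⟩, ⟨⟨Or.inr rfl, hw⟩, mem_univ _⟩, hadj i⟩
    · have hw : w ∈ A₀ := by
        obtain ⟨x, hx⟩ := hne
        rcases hA hx with hx' | hx'
        · exact absurd (hx' ▸ hx) hv
        · exact (Set.mem_singleton_iff.1 hx') ▸ hx
      have hinj : Function.Injective
          (fun i : Fin 5 => (((w, i), (v, i)) : (V × Fin 5) × (V × Fin 5))) := by
        intro i j hij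
        simp only [Prod.mk.injEq, true_and] at hij
        exact hij.1
      have : (5 : ℕ) = ((fun i : Fin 5 => (((w, i), (v, i)) :
          (V × Fin 5) × (V × Fin 5))) '' univ).ncard := by
        rw [Set.ncard_image_of_injective _ hinj, Set.ncard_univ]; simp
      refine this.le.trans ?_
      apply Set.ncard_le_ncard _ hfin
      rintro _ ⟨i, _, rfl⟩
      exact ⟨⟨hw, mem_univ _⟩, ⟨⟨Or.inl rfl, hv⟩, mem_univ _⟩, (hadj i).symm⟩
  unfold ce
  omega

private lemma hb_disj {K : Set (V × Fin 5)} {W : Set V} (h : Disjoint W (Prod.fst '' K)) :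
    Disjoint (W ×ˢ (univ : Set (Fin 5))) K := by
  rw [Set.disjoint_left] at h ⊢
  intro p hp hpK
  exact h hp.1 ⟨p, hpK, rfl⟩

theorem hb_blow (hc : Ctr G c) (hlf : ∀ v, (G.neighborSet v).Finite) (hB : HB G) :
    HB (blow G c) := by
  intro K hK
  have hK0 : (Prod.fst '' K).Finite := hK.image _
  have f1 : (prs (blow G c) ((Prod.fst '' K) ×ˢ (univ : Set (Fin 5))) univ).Finite :=
    prs_finite (blow_lf hc hlf) (hK0.prod finite_univ) univ
  have f2 := f1.image (Prod.swap : (V × Fin 5) × (V × Fin 5) → (V × Fin 5) × (V × Fin 5))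
  have f3 := (hB _ hK0).image
    (fun p : V × V => (((p.1, 0), (p.2, 0)) : (V × Fin 5) × (V × Fin 5)))
  refine ((f1.union f2).union f3).subset ?_
  rintro ⟨p, q⟩ ⟨hadj, hrel⟩
  replace hadj : (blow G c).Adj p q := hadj
  replace hrel : ¬ Rel (blow G c) K p q := hrel
  by_cases hp : p.1 ∈ Prod.fst '' K
  · exact Or.inl (Or.inl ⟨⟨hp, mem_univ _⟩, mem_univ _, hadj⟩)
  by_cases hq : q.1 ∈ Prod.fst '' K
  · exact Or.inl (Or.inr ⟨(q, p), ⟨⟨hq, mem_univ _⟩, mem_univ _, hadj.symm⟩, rfl⟩)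
  right
  rcases hadj with ⟨h1, h2⟩ | ⟨h1, h2, h3⟩ | ⟨h1, h2, h3⟩
  · exfalso
    refine hrel ⟨({p.1} : Set V) ×ˢ univ, (finite_singleton _).prod finite_univ,
      hb_disj (Set.disjoint_singleton_left.2 hp),
      hb_te_zero hc hlf (finite_singleton _) (te_singleton _), ⟨rfl, mem_univ _⟩,
      ⟨h1.symm, mem_univ _⟩⟩
  · by_cases hR : Rel G (Prod.fst '' K) p.1 q.1
    · exfalso
      obtain ⟨W, w1, w2, w3, w4, w5⟩ := hR
      exact hrel ⟨W ×ˢ univ, w1.prod finite_univ, hb_disj w2, hb_te_zero hc hlf w1 w3,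
        ⟨w4, mem_univ _⟩, ⟨w5, mem_univ _⟩⟩
    · refine ⟨(p.1, q.1), ⟨h3, hR⟩, ?_⟩
      exact Prod.ext (Prod.ext rfl h1.symm) (Prod.ext rfl h2.symm)
  · exfalso
    have hd : Disjoint ({p.1, q.1} : Set V) (Prod.fst '' K) := by
      rw [Set.disjoint_left]
      rintro x (hx | hx)
      · rw [hx]
        exact hp
      · rw [Set.mem_singleton_iff.1 hx]
        exact hq
    rcases h3 with h3 | h3
    · exact hrel ⟨({p.1, q.1} : Set V) ×ˢ univ, (Set.toFinite _).prod finite_univ, hb_disj hd,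
        hb_te_star hc hlf h2 h3, ⟨Or.inl rfl, mem_univ _⟩, ⟨Or.inr rfl, mem_univ _⟩⟩
    · have h4 := hb_te_star hc hlf (Ne.symm h2) h3
      rw [Set.pair_comm] at h4
      exact hrel ⟨({p.1, q.1} : Set V) ×ˢ univ, (Set.toFinite _).prod finite_univ, hb_disj hd,
        h4, ⟨Or.inl rfl, mem_univ _⟩, ⟨Or.inr rfl, mem_univ _⟩⟩

end Pool.H14.UE
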