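import Pool.Agent.Helper14.UE.Bound2

/-!
PIECE UE-2: the rank bound for the direct sum of the graphic matroids of the cores and of the quotient by all parts.

PROOF (compare `Pool.H66.HC.rank1_bound` in `Pool/Agent/Helper66/HC/Bases.lean`).  `S` := span of `evec (psi1 Ks Zs) '' A` ⊔ span of `T`, and
`lrk_le` with the finite set `T` := union over `K ∈ PK` of `{hl (p L) - hl (w K) : L a component of D[K], L ≠ the component of w K}` ∪
`{single (inr K) 1 - hrr y}`, and the vectors `hrr (p P) - hrr y` for the `P ∈ Ps` of the filter (`p`, `w`: chosen points).  For `K ∈ PK` these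
are at most `{L | IsComp D K L}.ncard` vectors.
(1) `hl u - hl (w K) ∈ S` for `u ∈ K ∈ Ks`: if `CC D K` by `conn_span`, otherwise as for the walls in HC/Bases.
(2) `D.Adj a b → hrr a - hrr b ∈ span A`: `adj_cases`; if `s(a, b) ∈ A`: if `SC Ks a b` then `q1 a = q1 b` (`q1_core`), otherwise `psi1_neg`;
if `a`, `b` are in the same zone then `q1 a = q1 b` (`q1_zone`).
(3) `hrr u - hrr y ∈ S` for all `u`: `P := compOf D univ u`.  If `y ∈ P`: `conn_span`.  If `y ∉ P` and `a ∈ P ∩ K`, `K ∈ PK`: `hrr u - hrr a`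
by `conn_span` and `hrr a = single (inr K) 1`.  Otherwise `P` is in the filter.
-/

open Set

namespace Pool.H14.UE

open Pool.H66.HC

universe u

variable {V : Type u} {G : SimpleGraph V}

open Classical in
theorem rank1_bound {Ks Zs : Set (Set V)} (hP : Part G Ks Zs)
    {E A : Finset (Sym2 V)} (hE : ∀ e, e ∈ E ↔ e ∈ inE G Zs) {D : SimpleGraph V}
    (hDdef : ∀ u v, D.Adj u v ↔ G.Adj u v ∧ s(u, v) ∉ E \ A) {Ps : Finset (Set V)}
    (hPs : ∀ P, P ∈ Ps ↔ IsComp D univ P) {PK : Finset (Set V)}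
    (hPK : ∀ K, K ∈ PK ↔ K ∈ Ks ∧ ¬ CC D K) (y : V) :
    lrk (evec (psi1 Ks Zs)) E ≤ lrk (evec (psi1 Ks Zs)) A +
      ∑ K ∈ PK, {L | IsComp D K L}.ncard +
      (Ps.filter fun P => y ∉ P ∧ ∀ K ∈ PK, Disjoint K P).card := by
  -- edges inside cores
  have hstepl : ∀ K ∈ Ks, ∀ u ∈ K, ∀ v ∈ K, D.Adj u v →
      (hl u : (V ⊕ Set V) →₀ ℚ) - hl v ∈
        Submodule.span ℚ (evec (psi1 Ks Zs) '' (A : Set (Sym2 V))) := by
    intro K hK u hu v hv huv
    rcases adj_cases hE hDdef huv with h | ⟨Z, hZ, h1, _⟩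
    · have := (psi_mem (psi1_anti Ks Zs)).2
        (Submodule.subset_span (R := ℚ) (s := evec (psi1 Ks Zs) '' (A : Set (Sym2 V))) ⟨_, h, rfl⟩)
      rw [psi1_pos ⟨K, hK, hu, hv⟩] at this
      exact this
    · exact absurd h1 (Set.disjoint_left.1 (hP.kz K hK Z hZ) hu)
  have hstepr : ∀ u v, D.Adj u v → hrr Ks Zs u - hrr Ks Zs v ∈
      Submodule.span ℚ (evec (psi1 Ks Zs) '' (A : Set (Sym2 V))) := by
    intro u v huv
    rcases adj_cases hE hDdef huv with h | ⟨Z, hZ, h1, h2⟩
    · by_cases hs : SC Ks u v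
      · obtain ⟨K, hK, hu, hv⟩ := hs
        rw [hrr, hrr, q1_core hP hK hu, q1_core hP hK hv, sub_self]
        exact Submodule.zero_mem _
      · have := (psi_mem (psi1_anti Ks Zs)).2
          (Submodule.subset_span (R := ℚ) (s := evec (psi1 Ks Zs) '' (A : Set (Sym2 V))) ⟨_, h, rfl⟩)
        rw [psi1_neg hs] at this
        exact this
    · rw [hrr, hrr, q1_zone hP hZ h1, q1_zone hP hZ h2, sub_self]
      exact Submodule.zero_mem _
  -- representatives
  have hrep : ∀ P : Set V, ∃ p : V, P.Nonempty → p ∈ P := by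
    intro P
    by_cases hP : P.Nonempty
    · obtain ⟨p, hp⟩ := hP
      exact ⟨p, fun _ => hp⟩
    · exact ⟨y, fun h => absurd h hP⟩
  choose p hp using hrep
  have hKfin : ∀ K ∈ Ks, {L | IsComp D K L}.Finite := fun K hK => finite_comps (hP.kf K hK)
  let K₀ : Set V → Set V := fun K => compOf D K (p K)
  have hK₀m : ∀ K ∈ Ks, IsComp D K (K₀ K) := fun K hK => isComp_compOf (hp K (hP.kne K hK))
  let Tw : Set V → Finset ((V ⊕ Set V) →₀ ℚ) := fun K =>
    if h : {L | IsComp D K L}.Finite then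
      insert (Finsupp.single (Sum.inr K) 1 - hrr Ks Zs y)
        ((h.toFinset.erase (K₀ K)).image fun L => hl (p L) - hl (p K))
    else ∅
  let Tn : Finset ((V ⊕ Set V) →₀ ℚ) :=
    (Ps.filter fun P => y ∉ P ∧ ∀ K ∈ PK, Disjoint K P).image
      fun P => hrr Ks Zs (p P) - hrr Ks Zs y
  let T : Finset ((V ⊕ Set V) →₀ ℚ) := PK.biUnion Tw ∪ Tn
  set S := Submodule.span ℚ (evec (psi1 Ks Zs) '' (A : Set (Sym2 V))) ⊔
    Submodule.span ℚ (T : Set ((V ⊕ Set V) →₀ ℚ)) with hS
  have hTS : ∀ x ∈ T, x ∈ S := fun x hx => Submodule.mem_sup_right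
    (Submodule.subset_span (Finset.mem_coe.2 hx))
  -- the cores
  have hL : ∀ K ∈ Ks, ∀ u ∈ K, (hl u : (V ⊕ Set V) →₀ ℚ) - hl (p K) ∈ S := by
    intro K hK u hu
    by_cases hcc : CC D K
    · exact Submodule.mem_sup_left (conn_span hcc hl _
        (fun a ha b hb hab => hstepl K hK a ha b hb hab) hu (hp K ⟨u, hu⟩))
    have hKP : K ∈ PK := (hPK K).2 ⟨hK, hcc⟩
    have hc := isComp_compOf (D := D) hu
    by_cases he : compOf D K u = K₀ K
    · refine Submodule.mem_sup_left (conn_span hc.cc hl _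
        (fun a ha b hb hab => hstepl K hK a (hc.sub ha) b (hc.sub hb) hab) (mem_compOf hu) ?_)
      rw [he]; exact mem_compOf (hp K ⟨u, hu⟩)
    · have h1 := conn_span hc.cc hl _
        (fun a ha b hb hab => hstepl K hK a (hc.sub ha) b (hc.sub hb) hab) (mem_compOf hu)
        (hp _ hc.ne)
      have h2 : (hl (p (compOf D K u)) : (V ⊕ Set V) →₀ ℚ) - hl (p K) ∈ S := by
        apply hTS
        refine Finset.mem_union_left _ (Finset.mem_biUnion.2 ⟨K, hKP, ?_⟩)
        simp only [Tw]
        rw [dif_pos (hKfin K hK)]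
        refine Finset.mem_insert_of_mem (Finset.mem_image.2 ⟨_, Finset.mem_erase.2 ⟨he, ?_⟩, rfl⟩)
        rw [Set.Finite.mem_toFinset]
        exact hc
      have := Submodule.add_mem _ (Submodule.mem_sup_left h1 : _ ∈ S) h2
      simpa using this
  have hR : ∀ u, hrr Ks Zs u - hrr Ks Zs y ∈ S := by
    intro u
    have hc := isComp_compOf (D := D) (mem_univ u)
    by_cases hy : y ∈ compOf D univ u
    · exact Submodule.mem_sup_left (conn_span hc.cc (hrr Ks Zs) _
        (fun a _ b _ hab => hstepr a b hab) (mem_compOf (mem_univ u)) hy)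
    by_cases hd : ∀ K ∈ PK, Disjoint K (compOf D univ u)
    · have h1 := conn_span hc.cc (hrr Ks Zs) _ (fun a _ b _ hab => hstepr a b hab)
        (mem_compOf (mem_univ u)) (hp _ hc.ne)
      have h2 : hrr Ks Zs (p (compOf D univ u)) - hrr Ks Zs y ∈ S := by
        apply hTS
        exact Finset.mem_union_right _ (Finset.mem_image.2
          ⟨_, Finset.mem_filter.2 ⟨(hPs _).2 hc, hy, hd⟩, rfl⟩)
      have := Submodule.add_mem _ (Submodule.mem_sup_left h1 : _ ∈ S) h2
      simpa using this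
    · push Not at hd
      obtain ⟨K, hKP, hK⟩ := hd
      obtain ⟨a, haK, haP⟩ := Set.not_disjoint_iff.1 hK
      have hKs := ((hPK K).1 hKP).1
      have h1 := conn_span hc.cc (hrr Ks Zs) _ (fun a _ b _ hab => hstepr a b hab)
        (mem_compOf (mem_univ u)) haP
      have h2 : hrr Ks Zs a - hrr Ks Zs y ∈ S := by
        apply hTS
        refine Finset.mem_union_left _ (Finset.mem_biUnion.2 ⟨K, hKP, ?_⟩)
        simp only [Tw]
        have e1 : hrr Ks Zs a = Finsupp.single (Sum.inr K) 1 := by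
          rw [hrr, q1_core hP hKs haK]
        rw [dif_pos (hKfin K hKs), e1]
        exact Finset.mem_insert_self _ _
      have := Submodule.add_mem _ (Submodule.mem_sup_left h1 : _ ∈ S) h2
      simpa using this
  have h1 := lrk_le (evec (psi1 Ks Zs)) (A := A) (E := E) T (by
    intro e he
    induction e using Sym2.ind with
    | _ u v =>
      rw [← psi_mem (psi1_anti Ks Zs)]
      by_cases hs : SC Ks u v
      · rw [psi1_pos hs]
        obtain ⟨K, hK, hu, hv⟩ := hs
        have := Submodule.sub_mem _ (hL K hK u hu) (hL K hK v hv)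
        simpa using this
      · rw [psi1_neg hs]
        have := Submodule.sub_mem _ (hR u) (hR v)
        simpa using this)
  have c1 : ∀ K ∈ PK, (Tw K).card ≤ {L | IsComp D K L}.ncard := by
    intro K hKP
    have hKs := ((hPK K).1 hKP).1
    have hm : K₀ K ∈ (hKfin K hKs).toFinset := by
      rw [Set.Finite.mem_toFinset]; exact hK₀m K hKs
    have h3 : (((hKfin K hKs).toFinset.erase (K₀ K)).image
        fun L => (hl (p L) : (V ⊕ Set V) →₀ ℚ) - hl (p K)).card ≤
        (hKfin K hKs).toFinset.card - 1 := by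
      refine Finset.card_image_le.trans ?_
      rw [Finset.card_erase_of_mem hm]
    have h4 : 0 < (hKfin K hKs).toFinset.card := Finset.card_pos.2 ⟨_, hm⟩
    rw [Set.ncard_eq_toFinset_card _ (hKfin K hKs)]
    simp only [Tw]
    rw [dif_pos (hKfin K hKs)]
    refine (Finset.card_insert_le _ _).trans ?_
    omega
  have c2 : (PK.biUnion Tw).card ≤ ∑ K ∈ PK, {L | IsComp D K L}.ncard :=
    Finset.card_biUnion_le.trans (Finset.sum_le_sum c1)
  have c3 : Tn.card ≤ (Ps.filter fun P => y ∉ P ∧ ∀ K ∈ PK, Disjoint K P).card :=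
    Finset.card_image_le
  have c4 : T.card ≤ (PK.biUnion Tw).card + Tn.card := Finset.card_union_le _ _
  omega

end Pool.H14.UE
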