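import Pool.Agent.Helper14.UE.Part

/-!
PIECE UE-1: the rank bound for the graphic matroid of the quotient by the zones.

PROOF. Port of `Pool.H66.HC.rank2_bound` (file `Pool/Agent/Helper66/HC/Bases.lean`): if `D.Adj u v` then `s(u, v) ∈ A` or `u`, `v`
are in the same zone `Z` (`mem_inE`), in this case `vec2 Zs u = vec2 Zs v` (`q2_zone`).
-/

open Set

namespace Pool.H14.UE

open Pool.H66.HC

universe u

variable {V : Type u} {G : SimpleGraph V}

/-- an edge of `D` is in `A` or inside a zone -/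
lemma adj_cases {Zs : Set (Set V)} [DecidableEq V] {E A : Finset (Sym2 V)}
    (hE : ∀ e, e ∈ E ↔ e ∈ inE G Zs) {D : SimpleGraph V}
    (hDdef : ∀ u v, D.Adj u v ↔ G.Adj u v ∧ s(u, v) ∉ E \ A) {u v : V} (h : D.Adj u v) :
    s(u, v) ∈ A ∨ ∃ Z ∈ Zs, u ∈ Z ∧ v ∈ Z := by
  obtain ⟨h1, h2⟩ := (hDdef u v).1 h
  by_cases hEe : s(u, v) ∈ E
  · left
    by_contra hA
    exact h2 (Finset.mem_sdiff.2 ⟨hEe, hA⟩)
  · right
    rw [hE, mem_inE] at hEe
    by_contra hcon
    push Not at hcon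
    exact hEe ⟨h1, fun Z hZ h => hcon Z hZ h.1 h.2⟩

theorem rank2_bound [Nonempty V] [DecidableEq V] {Ks Zs : Set (Set V)} (hP : Part G Ks Zs)
    {E A : Finset (Sym2 V)} (hE : ∀ e, e ∈ E ↔ e ∈ inE G Zs) {D : SimpleGraph V}
    (hDdef : ∀ u v, D.Adj u v ↔ G.Adj u v ∧ s(u, v) ∉ E \ A) {Ps : Finset (Set V)}
    (hPs : ∀ P, P ∈ Ps ↔ IsComp D univ P) :
    lrk (evec (psi2 Zs)) E + 1 ≤ lrk (evec (psi2 Zs)) A + Ps.card := by
  classical
  obtain ⟨y⟩ : Nonempty V := inferInstance
  have hstep : ∀ u v, D.Adj u v → vec2 Zs u - vec2 Zs v ∈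
      Submodule.span ℚ (evec (psi2 Zs) '' (A : Set (Sym2 V))) := by
    intro u v huv
    rcases adj_cases hE hDdef huv with h | ⟨Z, hZ, h1, h2⟩
    · exact (psi_mem (psi2_anti Zs)).2 (Submodule.subset_span ⟨_, h, rfl⟩)
    · have h3 : vec2 Zs u = vec2 Zs v := by
        unfold vec2
        rw [q2_zone hP hZ h1, q2_zone hP hZ h2]
      rw [h3, sub_self]
      exact Submodule.zero_mem _
  -- representatives
  have hrep : ∀ P : Set V, ∃ p : V, P ∈ Ps → p ∈ P := by
    intro P
    by_cases hP : P ∈ Ps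
    · obtain ⟨p, hp⟩ := ((hPs P).1 hP).ne
      exact ⟨p, fun _ => hp⟩
    · exact ⟨y, fun h => absurd h hP⟩
  choose p hp using hrep
  set P₀ := compOf D univ y with hP₀
  have hP₀m : P₀ ∈ Ps := (hPs _).2 (isComp_compOf (mem_univ y))
  let T : Finset (Set V →₀ ℚ) := (Ps.erase P₀).image fun P => vec2 Zs (p P) - vec2 Zs y
  have hall : ∀ u, vec2 Zs u - vec2 Zs y ∈
      Submodule.span ℚ (evec (psi2 Zs) '' (A : Set (Sym2 V))) ⊔ Submodule.span ℚ (T : Set _) := by
    intro u
    have hc := isComp_compOf (D := D) (mem_univ u)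
    by_cases he : compOf D univ u = P₀
    · refine Submodule.mem_sup_left (conn_span hc.cc (vec2 Zs) _
        (fun a _ b _ hab => hstep a b hab) (mem_compOf (mem_univ u)) ?_)
      rw [he]; exact mem_compOf (mem_univ y)
    · have hm : compOf D univ u ∈ Ps := (hPs _).2 hc
      have h1 := conn_span hc.cc (vec2 Zs) _
        (fun a _ b _ hab => hstep a b hab) (mem_compOf (mem_univ u)) (hp _ hm)
      have h2 : vec2 Zs (p (compOf D univ u)) - vec2 Zs y ∈ Submodule.span ℚ (T : Set _) :=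
        Submodule.subset_span (Finset.mem_coe.2 (Finset.mem_image.2
          ⟨_, Finset.mem_erase.2 ⟨he, hm⟩, rfl⟩))
      have := Submodule.add_mem _ (Submodule.mem_sup_left (T := Submodule.span ℚ (T : Set _)) h1)
        (Submodule.mem_sup_right h2)
      simpa using this
  have h1 := lrk_le (evec (psi2 Zs)) (A := A) (E := E) T (by
    intro e he
    induction e using Sym2.ind with
    | _ u v =>
      rw [← psi_mem (psi2_anti Zs)]
      have := Submodule.sub_mem _ (hall u) (hall v)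
      change vec2 Zs u - vec2 Zs v ∈ _
      simpa using this)
  have h2 : T.card ≤ Ps.card - 1 := by
    refine Finset.card_image_le.trans ?_
    rw [Finset.card_erase_of_mem hP₀m]
  have h3 : 0 < Ps.card := Finset.card_pos.2 ⟨_, hP₀m⟩
  omega

end Pool.H14.UE
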