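import Pool.Agent.Helper66.HC.Limit

/-! # Finite three-edge-connected sets and their classes -/

open Set

namespace Pool.H14.UE

open Pool.H66.HC

universe u

variable {V : Type u} {G : SimpleGraph V}

/-- three-edge-connectedness of a finite vertex set in terms of cuts -/
def TE (G : SimpleGraph V) (S : Set V) : Prop :=
  ∀ A ⊆ S, A.Nonempty → A ≠ S → 3 ≤ ce G A (S \ A)

lemma te_singleton (x : V) : TE G {x} := by
  intro A hA hne hneq
  exact absurd (hne.subset_singleton_iff.1 hA) hneq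

lemma TE.cc {S : Set V} (h : TE G S) : CC G S := by
  intro A hA hne hneq
  by_contra hcon
  push Not at hcon
  have h1 := h A hA hne hneq
  have h2 : prs G A (S \ A) = ∅ := by
    rw [Set.eq_empty_iff_forall_notMem]
    rintro ⟨a, b⟩ ⟨ha, hb, hab⟩
    exact hcon a ha b hb hab
  rw [ce, h2, Set.ncard_empty] at h1
  omega

lemma te_union (hlf : ∀ v, (G.neighborSet v).Finite) {S T : Set V} (fS : S.Finite)
    (fT : T.Finite) (hS : TE G S) (hT : TE G T) {r : V} (h1 : r ∈ S) (h2 : r ∈ T) :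
    TE G (S ∪ T) := by
  intro A hA hne hneq
  have fA : A.Finite := (fS.union fT).subset hA
  by_cases c1 : (A ∩ S).Nonempty ∧ A ∩ S ≠ S
  · refine (hS _ inter_subset_right c1.1 c1.2).trans (ce_mono hlf fA inter_subset_left ?_)
    rintro v hv
    exact ⟨Or.inl hv.1, fun h => hv.2 ⟨h, hv.1⟩⟩
  by_cases c2 : (A ∩ T).Nonempty ∧ A ∩ T ≠ T
  · refine (hT _ inter_subset_right c2.1 c2.2).trans (ce_mono hlf fA inter_subset_left ?_)
    rintro v hv
    exact ⟨Or.inr hv.1, fun h => hv.2 ⟨h, hv.1⟩⟩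
  exfalso
  push Not at c1 c2
  by_cases hr : r ∈ A
  · have e1 := c1 ⟨r, hr, h1⟩
    have e2 := c2 ⟨r, hr, h2⟩
    apply hneq
    refine hA.antisymm ?_
    rintro x (hx | hx)
    · rw [← e1] at hx; exact hx.1
    · rw [← e2] at hx; exact hx.1
  · obtain ⟨x, hx⟩ := hne
    rcases hA hx with hx' | hx'
    · have e1 := c1 ⟨x, hx, hx'⟩
      rw [← e1] at h1; exact hr h1.1
    · have e2 := c2 ⟨x, hx, hx'⟩
      rw [← e2] at h2; exact hr h2.1

/-- `x` and `y` are in a common finite three-edge-connected set that avoids `K` -/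
def Rel (G : SimpleGraph V) (K : Set V) (x y : V) : Prop :=
  ∃ W : Set V, W.Finite ∧ Disjoint W K ∧ TE G W ∧ x ∈ W ∧ y ∈ W

lemma Rel.refl {K : Set V} {x : V} (hx : x ∉ K) : Rel G K x x :=
  ⟨{x}, finite_singleton x, Set.disjoint_singleton_left.2 hx, te_singleton x, rfl, rfl⟩

lemma Rel.symm {K : Set V} {x y : V} (h : Rel G K x y) : Rel G K y x := by
  obtain ⟨W, a, b, c, d, e⟩ := h
  exact ⟨W, a, b, c, e, d⟩

lemma Rel.trans (hlf : ∀ v, (G.neighborSet v).Finite) {K : Set V} {x y z : V}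
    (h : Rel G K x y) (h' : Rel G K y z) : Rel G K x z := by
  obtain ⟨W, a, b, c, d, e⟩ := h
  obtain ⟨W', a', b', c', d', e'⟩ := h'
  exact ⟨W ∪ W', a.union a', Set.disjoint_union_left.2 ⟨b, b'⟩, te_union hlf a a' c c' e d',
    Or.inl d, Or.inr e'⟩

lemma Rel.notMem {K : Set V} {x y : V} (h : Rel G K x y) : x ∉ K := by
  obtain ⟨W, _, b, _, d, _⟩ := h
  exact fun hx => Set.disjoint_left.1 b d hx

/-- the class of `x` -/
def cls (G : SimpleGraph V) (K : Set V) (x : V) : Set V := {y | Rel G K x y}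

lemma mem_cls {K : Set V} {x : V} (hx : x ∉ K) : x ∈ cls G K x := Rel.refl hx

lemma cls_disjoint {K : Set V} {x : V} : Disjoint (cls G K x) K := by
  rw [Set.disjoint_left]
  intro y hy
  exact (Rel.symm hy).notMem

lemma cls_eq (hlf : ∀ v, (G.neighborSet v).Finite) {K : Set V} {x y : V} (h : y ∈ cls G K x) :
    cls G K x = cls G K y := by
  ext z
  exact ⟨fun hz => Rel.trans hlf (Rel.symm h) hz, fun hz => Rel.trans hlf h hz⟩

lemma cls_eq_or_disjoint (hlf : ∀ v, (G.neighborSet v).Finite) {K : Set V} {x y : V} :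
    cls G K x = cls G K y ∨ Disjoint (cls G K x) (cls G K y) := by
  by_cases h : (cls G K x ∩ cls G K y).Nonempty
  · obtain ⟨z, hz, hz'⟩ := h
    left
    rw [cls_eq hlf hz, cls_eq hlf hz']
  · right
    rw [Set.disjoint_iff_inter_eq_empty]
    exact Set.not_nonempty_iff_eq_empty.1 h

/-- all but finitely many edges are in finite three-edge-connected sets that avoid `K` -/
def HB (G : SimpleGraph V) : Prop :=
  ∀ K : Set V, K.Finite → {p : V × V | G.Adj p.1 p.2 ∧ ¬ Rel G K p.1 p.2}.Finite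

/-- the sets that are used as zones -/
structure IsZone (G : SimpleGraph V) (Z : Set V) : Prop where
  ne : Z.Nonempty
  bd : (prs G Z Zᶜ).Finite
  hull : ∀ S ⊆ Z, S.Finite → ∃ W ⊆ Z, W.Finite ∧ W.Nonempty ∧ S ⊆ W ∧ TE G W

lemma IsZone.cc {Z : Set V} (h : IsZone G Z) : CC G Z := by
  intro A hA hne hneq
  obtain ⟨a, ha⟩ := hne
  obtain ⟨b, hb, hb'⟩ : ∃ b ∈ Z, b ∉ A := by
    by_contra hcon
    push Not at hcon
    exact hneq (hA.antisymm hcon)
  obtain ⟨W, hWZ, _, _, hS, hW⟩ := h.hull {a, b} (by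
    rintro x (rfl | rfl)
    · exact hA ha
    · exact hb) (Set.toFinite _)
  obtain ⟨u, hu, v, hv, huv⟩ := hW.cc (W ∩ A) inter_subset_left ⟨a, hS (Or.inl rfl), ha⟩
    (fun he => hb' (by
      have : b ∈ W ∩ A := by rw [he]; exact hS (Or.inr rfl)
      exact this.2))
  exact ⟨u, hu.2, v, ⟨hWZ hv.1, fun h => hv.2 ⟨hv.1, h⟩⟩, huv⟩

lemma isZone_cls (hlf : ∀ v, (G.neighborSet v).Finite) (hB : HB G) {K : Set V} (hK : K.Finite)
    {x : V} (hx : x ∉ K) : IsZone G (cls G K x) where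
  ne := ⟨x, mem_cls hx⟩
  bd := by
    refine (hB K hK).subset ?_
    rintro ⟨u, v⟩ ⟨hu, hv, huv⟩
    exact ⟨huv, fun h => hv (Rel.trans hlf hu h)⟩
  hull := by
    intro S hS hf
    have key : ∀ S : Set V, S.Finite → S ⊆ cls G K x →
        ∃ W ⊆ cls G K x, W.Finite ∧ x ∈ W ∧ S ⊆ W ∧ TE G W := by
      intro S hf
      induction S, hf using Set.Finite.induction_on with
      | empty =>
        intro _
        exact ⟨{x}, Set.singleton_subset_iff.2 (mem_cls hx), finite_singleton x, rfl,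
          empty_subset _, te_singleton x⟩
      | @insert y s _ _ ih =>
        intro hys
        obtain ⟨W, h1, h2, h3, h4, h5⟩ := ih ((subset_insert _ _).trans hys)
        obtain ⟨W', a, b, c, d, e⟩ := hys (mem_insert _ _)
        refine ⟨W ∪ W', union_subset h1 ?_, h2.union a, Or.inl h3, ?_,
          te_union hlf h2 a h5 c h3 d⟩
        · intro z hz
          exact ⟨W', a, b, c, d, hz⟩
        · rintro z (rfl | hz)
          · exact Or.inr e
          · exact Or.inl (h4 hz)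
    obtain ⟨W, h1, h2, h3, h4, h5⟩ := key S hf hS
    exact ⟨W, h1, h2, ⟨x, h3⟩, h4, h5⟩

/-- there are only finitely many classes -/
lemma classes_fin (hlf : ∀ v, (G.neighborSet v).Finite) (hc : CC G univ) (hB : HB G)
    {K : Set V} (hK : K.Finite) : {C | ∃ x, x ∉ K ∧ C = cls G K x}.Finite := by
  by_cases h0 : ∃ x, x ∉ K ∧ cls G K x = univ
  · obtain ⟨x, hx, hx'⟩ := h0
    refine (finite_singleton (cls G K x)).subset ?_
    rintro C ⟨y, hy, rfl⟩
    rcases cls_eq_or_disjoint hlf (K := K) (x := y) (y := x) with h | h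
    · exact h
    · exfalso
      exact Set.disjoint_left.1 h (mem_cls hy) (by rw [hx']; trivial)
  push Not at h0
  have h1 : {C | ∃ x, x ∉ K ∧ C = cls G K x} ⊆
      (fun p : V × V => cls G K p.1) '' {p : V × V | G.Adj p.1 p.2 ∧ ¬ Rel G K p.1 p.2} := by
    rintro C ⟨x, hx, rfl⟩
    obtain ⟨u, hu, v, hv, huv⟩ := hc (cls G K x) (subset_univ _) ⟨x, mem_cls hx⟩ (h0 x hx)
    exact ⟨(u, v), ⟨huv, fun h => hv.2 (Rel.trans hlf hu h)⟩, (cls_eq hlf hu).symm⟩
  exact ((hB K hK).image _).subset h1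

/-- the inner boundary -/
def bdy (G : SimpleGraph V) (Z : Set V) : Set V := {u | u ∈ Z ∧ ∃ v, v ∉ Z ∧ G.Adj u v}

lemma IsZone.bdy_finite {Z : Set V} (h : IsZone G Z) : (bdy G Z).Finite := by
  refine (h.bd.image Prod.fst).subset ?_
  rintro u ⟨hu, v, hv, huv⟩
  exact ⟨(u, v), ⟨hu, hv, huv⟩, rfl⟩

/-- a connected set that avoids the inner boundary of `Z` and meets `Z` is inside `Z` -/
lemma cc_inside {Z W : Set V} (hW : CC G W) (hd : Disjoint W (bdy G Z)) (h : (W ∩ Z).Nonempty) :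
    W ⊆ Z := by
  by_contra hcon
  obtain ⟨u, hu, v, hv, huv⟩ := hW (W ∩ Z) inter_subset_left h (fun he => hcon (by
    rw [← he]; exact inter_subset_right))
  exact Set.disjoint_left.1 hd hu.1 ⟨hu.2, v, fun h => hv.2 ⟨hv.1, h⟩, huv⟩

/-- the classes outside a core of `Z` are inside `Z` or outside `Z` -/
lemma cls_inside {Z K : Set V} (hb : bdy G Z ⊆ K) {x : V} (hx : x ∈ Z) (hxK : x ∉ K) :
    cls G K x ⊆ Z \ K := by
  intro y hy
  refine ⟨?_, (Rel.symm hy).notMem⟩
  obtain ⟨W, _, b, c, d, e⟩ := hy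
  exact cc_inside c.cc (b.mono_right hb) ⟨x, d, hx⟩ e

end Pool.H14.UE
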