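import Pool.Agent.Helper14.UE.Part

/-!
PIECE UE-3: the counting inequality.

PROOF. `fr G D S` = number of ordered pairs `(u, v)`, `u ∈ S`, `G.Adj u v`, `¬ D.Adj u v` (`Pool/Agent/Helper66/HC/Comp.lean`: `fr_mono`, `fr_union`,
`ce_le_fr`, `sum_cnt`, `fr_fin`).  For `P ∈ Ps` let `c P := ∑ K ∈ PK, {L | IsComp D K L ∧ L ⊆ P}.ncard`.
(1) `L` a component of `D[K]`, `K ∈ PK`: `L ≠ K` (otherwise `CC D K`), so `3 ≤ ce G L (K \ L) ≤ fr G D L` (`hP.kte`, `ce_le_fr`, `IsComp.closed`).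
(2) `3 * c P ≤ fr G D P`: the sets `L` (`K ∈ PK`, `L ⊆ P`) are pairwise disjoint (`IsComp.disjoint`, `hP.kk`); `sum_cnt` for the finset of all
these `L`.
(3) `P ≠ univ` and `P` nonempty: `4 ≤ fr G D P` (`h4 P`, `prs G P Pᶜ ⊆ rmv G D` is finite, `ce_le_fr`).
(4) `∑ K ∈ PK, {L | IsComp D K L}.ncard ≤ ∑ P ∈ Ps, c P` (every `L` is inside the class `compOf D univ x`, `x ∈ L`; compare `e7`, `e8` in
`Pool/Agent/Helper66/HC/Total.lean`).
(5) If `P ∈ Ps` is `univ` then `Ps = {univ}` and the filter is empty (`y ∈ univ`): `2 * c ≤ fr`.  Otherwise for all `P ∈ Ps`: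
`2 * c P + 2 + (if ∀ K ∈ PK, Disjoint K P then 2 else 0) ≤ fr G D P`: if all `K ∈ PK` are disjoint from `P` then `c P = 0`, use (3);
otherwise `c P ≥ 1` is not needed: if `c P ≤ 1` use (3), if `c P ≥ 2` use (2).  Sum over `P` (`sum_cnt`, the classes are disjoint).
-/

open Set

namespace Pool.H14.UE

open Pool.H66.HC

universe u

variable {V : Type u} {G : SimpleGraph V}

section

variable {Ks Zs : Set (Set V)} {D : SimpleGraph V} {PK : Finset (Set V)}

private lemma comps_fin (hP : Part G Ks Zs) (hPK : ∀ K, K ∈ PK ↔ K ∈ Ks ∧ ¬ CC D K) {K : Set V}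
    (hK : K ∈ PK) : {L | IsComp D K L}.Finite :=
  finite_comps (hP.kf K ((hPK K).1 hK).1)

private lemma three_le_fr (hP : Part G Ks Zs) (hr : (rmv G D).Finite)
    (hPK : ∀ K, K ∈ PK ↔ K ∈ Ks ∧ ¬ CC D K) {K L : Set V} (hK : K ∈ PK)
    (hL : IsComp D K L) : 3 ≤ fr G D L := by
  obtain ⟨h1, h2⟩ := (hPK K).1 hK
  have hne : L ≠ K := by
    rintro rfl
    exact h2 hL.cc
  refine (hP.kte K h1 L hL.sub hL.ne hne).trans (ce_le_fr hr ?_)
  intro u hu v hv huv
  exact hv.2 (hL.closed u hu v hv.1 huv)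

open Classical in
private lemma three_c (hP : Part G Ks Zs) (hr : (rmv G D).Finite)
    (hPK : ∀ K, K ∈ PK ↔ K ∈ Ks ∧ ¬ CC D K) (P : Set V) :
    3 * ∑ K ∈ PK, {L | IsComp D K L ∧ L ⊆ P}.ncard ≤ fr G D P := by
  have hf : ∀ K ∈ PK, {L | IsComp D K L ∧ L ⊆ P}.Finite := fun K hK =>
    (comps_fin hP hPK hK).subset fun _ h => h.1
  let F : Set V → Finset (Set V) := fun K =>
    if h : {L | IsComp D K L ∧ L ⊆ P}.Finite then h.toFinset else ∅
  have hF : ∀ K ∈ PK, ∀ L, L ∈ F K ↔ IsComp D K L ∧ L ⊆ P := by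
    intro K hK L
    simp only [F, dif_pos (hf K hK), Set.Finite.mem_toFinset, Set.mem_ofPred_eq]
  have hc : ∀ K ∈ PK, {L | IsComp D K L ∧ L ⊆ P}.ncard = (F K).card := by
    intro K hK
    simp only [F, dif_pos (hf K hK)]
    exact Set.ncard_eq_toFinset_card _ (hf K hK)
  rw [Finset.sum_congr rfl hc, ← Finset.card_biUnion]
  · have h1 : (PK.biUnion F).card * 3 ≤ ∑ L ∈ PK.biUnion F, fr G D L := by
      have := Finset.card_nsmul_le_sum (PK.biUnion F) (fun L => fr G D L) 3 (by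
        intro L hL
        obtain ⟨K, hK, hLK⟩ := Finset.mem_biUnion.1 hL
        exact three_le_fr hP hr hPK hK ((hF K hK L).1 hLK).1)
      simpa using this
    have h2 : ∑ L ∈ PK.biUnion F, fr G D L ≤ fr G D P := by
      refine sum_cnt _ P (fr_fin hr _) ?_ ?_
      · intro L hL
        obtain ⟨K, hK, hLK⟩ := Finset.mem_biUnion.1 hL
        exact ((hF K hK L).1 hLK).2
      · intro L hL L' hL' hne
        obtain ⟨K, hK, hLK⟩ := Finset.mem_biUnion.1 hL
        obtain ⟨K', hK', hLK'⟩ := Finset.mem_biUnion.1 hL'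
        have e1 := ((hF K hK L).1 hLK).1
        have e2 := ((hF K' hK' L').1 hLK').1
        by_cases hKK : K = K'
        · subst hKK
          exact e1.disjoint e2 hne
        · exact (hP.kk K ((hPK K).1 hK).1 K' ((hPK K').1 hK').1 hKK).mono e1.sub e2.sub
    omega
  · intro K hK K' hK' hne
    simp only [Function.onFun]
    rw [Finset.disjoint_left]
    intro L hL hL'
    have e1 := ((hF K hK L).1 hL).1
    have e2 := ((hF K' hK' L).1 hL').1
    obtain ⟨x, hx⟩ := e1.ne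
    exact Set.disjoint_left.1 (hP.kk K ((hPK K).1 hK).1 K' ((hPK K').1 hK').1 hne)
      (e1.sub hx) (e2.sub hx)

end

open Classical in
theorem count_ineq (hlf : ∀ v, (G.neighborSet v).Finite) (h4 : Four G) {Ks Zs : Set (Set V)}
    (hP : Part G Ks Zs) {D : SimpleGraph V} (hD : D ≤ G) (hr : (rmv G D).Finite)
    {Ps : Finset (Set V)} (hPs : ∀ P, P ∈ Ps ↔ IsComp D univ P) {PK : Finset (Set V)}
    (hPK : ∀ K, K ∈ PK ↔ K ∈ Ks ∧ ¬ CC D K) (y : V) :
    2 * ∑ K ∈ PK, {L | IsComp D K L}.ncard +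
      2 * (Ps.filter fun P => y ∉ P ∧ ∀ K ∈ PK, Disjoint K P).card + 2 * Ps.card ≤
      fr G D univ + 2 := by
  have h3 := three_c hP hr hPK
  have hdisj : ∀ P ∈ Ps, ∀ Q ∈ Ps, P ≠ Q → Disjoint P Q := fun P hP Q hQ hne =>
    ((hPs P).1 hP).disjoint ((hPs Q).1 hQ) hne
  have e3 : ∑ P ∈ Ps, fr G D P ≤ fr G D univ :=
    sum_cnt Ps univ (fr_fin hr _) (fun _ _ => subset_univ _) hdisj
  -- every component of `D[K]` is in a class
  have e7 : ∀ K ∈ PK, {L | IsComp D K L}.ncard ≤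
      ∑ P ∈ Ps, {L | IsComp D K L ∧ L ⊆ P}.ncard := by
    intro K hK
    have hf := comps_fin hP hPK hK
    have h1 : ∀ P, {L | IsComp D K L ∧ L ⊆ P}.Finite := fun P => hf.subset fun _ h => h.1
    have h2 : ∀ P, {L | IsComp D K L ∧ L ⊆ P}.ncard = (h1 P).toFinset.card := fun P =>
      Set.ncard_eq_toFinset_card _ (h1 P)
    rw [Set.ncard_eq_toFinset_card _ hf]
    simp only [h2]
    refine le_trans (Finset.card_le_card ?_) Finset.card_biUnion_le
    intro L hL
    simp only [Finset.mem_biUnion, Set.Finite.mem_toFinset] at hL ⊢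
    obtain ⟨x, hx⟩ := id (IsComp.ne hL)
    have hQ := isComp_compOf (D := D) (mem_univ x)
    exact ⟨compOf D univ x, (hPs _).2 hQ, hL, hL.subset_of_closed
      (fun u hu v _ huv => hQ.closed u hu v trivial huv) ⟨x, hx, mem_compOf (mem_univ x)⟩⟩
  have e8 : ∑ K ∈ PK, {L | IsComp D K L}.ncard ≤
      ∑ P ∈ Ps, ∑ K ∈ PK, {L | IsComp D K L ∧ L ⊆ P}.ncard := by
    rw [Finset.sum_comm]
    exact Finset.sum_le_sum e7
  by_cases hu : univ ∈ Ps
  · -- a single class
    have hs : Ps = {univ} := by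
      rw [Finset.eq_singleton_iff_unique_mem]
      refine ⟨hu, fun Q hQ => ?_⟩
      by_contra hne
      obtain ⟨x, hx⟩ := ((hPs Q).1 hQ).ne
      exact Set.disjoint_left.1 (hdisj Q hQ univ hu hne) hx trivial
    have hfil : (Ps.filter fun P => y ∉ P ∧ ∀ K ∈ PK, Disjoint K P) = ∅ := by
      rw [hs, Finset.filter_eq_empty_iff]
      intro P hP h
      rw [Finset.mem_singleton] at hP
      subst hP
      exact h.1 trivial
    have hcard : Ps.card = 1 := by rw [hs, Finset.card_singleton]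
    have h5 := h3 univ
    rw [hs, Finset.sum_singleton] at e8
    rw [hfil, hcard, Finset.card_empty]
    omega
  · have hone : ∀ P ∈ Ps, 2 * ∑ K ∈ PK, {L | IsComp D K L ∧ L ⊆ P}.ncard + 2 +
        2 * (if (∀ K ∈ PK, Disjoint K P) then 1 else 0) ≤ fr G D P := by
      intro P hPP
      have hC := (hPs P).1 hPP
      have hPc : Pᶜ.Nonempty := by
        rw [Set.nonempty_compl]
        rintro rfl
        exact hu hPP
      have hno : ∀ u ∈ P, ∀ v ∈ Pᶜ, ¬ D.Adj u v := fun u hu v hv huv =>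
        hv (hC.closed u hu v trivial huv)
      have hfin : (prs G P Pᶜ).Finite := hr.subset fun p hp => ⟨hp.2.2, hno _ hp.1 _ hp.2.1⟩
      have h1 := h4 P hC.ne hPc hfin
      have h2 := ce_le_fr hr hno
      have h5 := h3 P
      by_cases hd : ∀ K ∈ PK, Disjoint K P
      · have h0 : ∑ K ∈ PK, {L | IsComp D K L ∧ L ⊆ P}.ncard = 0 := by
          refine Finset.sum_eq_zero fun K hK => ?_
          have : {L | IsComp D K L ∧ L ⊆ P} = ∅ := by
            rw [Set.eq_empty_iff_forall_notMem]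
            rintro L ⟨e1, e2⟩
            obtain ⟨x, hx⟩ := e1.ne
            exact Set.disjoint_left.1 (hd K hK) (e1.sub hx) (e2 hx)
          rw [this, Set.ncard_empty]
        rw [if_pos hd, h0]
        omega
      · rw [if_neg hd]
        omega
    have hsum := Finset.sum_le_sum hone
    simp only [Finset.sum_add_distrib, ← Finset.mul_sum] at hsum
    have e1 : ∑ P ∈ Ps, (2 : ℕ) = 2 * Ps.card := by
      rw [Finset.sum_const, smul_eq_mul, mul_comm]
    have e2 : ∑ P ∈ Ps, (if (∀ K ∈ PK, Disjoint K P) then 1 else 0) =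
        (Ps.filter fun P => ∀ K ∈ PK, Disjoint K P).card := by
      rw [← Finset.card_filter]
    have e4 : (Ps.filter fun P => y ∉ P ∧ ∀ K ∈ PK, Disjoint K P).card ≤
        (Ps.filter fun P => ∀ K ∈ PK, Disjoint K P).card := by
      refine Finset.card_le_card ?_
      intro P hP
      rw [Finset.mem_filter] at hP ⊢
      exact ⟨hP.1, hP.2.2⟩
    rw [e1, e2] at hsum
    omega

end Pool.H14.UE
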