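import Pool.Agent.Helper14.UE.Bound1
import Pool.Agent.Helper14.UE.Bound2
import Pool.Agent.Helper14.UE.Cnt
import Pool.Agent.Helper66.HC.Step

/-!
The finite step (port of `Pool.H66.HC.finite_step` in `Pool/Agent/Helper66/HC/Step.lean`).
-/

open Set

namespace Pool.H14.UE

open Pool.H66.HC

universe u

variable {V : Type u} {G : SimpleGraph V}

lemma comps_finite {Ks Zs : Set (Set V)} (hP : Part G Ks Zs) {D : SimpleGraph V}
    (hD : ∀ Z ∈ Zs, ∀ u ∈ Z, ∀ v ∈ Z, G.Adj u v → D.Adj u v) : {P | IsComp D univ P}.Finite := by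
  have hfin : ((compOf D univ) '' (⋃₀ Ks) ∪
      (fun Z => {x | ∃ z ∈ Z, x ∈ compOf D univ z}) '' Zs).Finite :=
    ((hP.kfin.sUnion hP.kf).image _).union (hP.zfin.image _)
  refine hfin.subset ?_
  intro P hPc
  have heq : ∀ x ∈ P, compOf D univ x = P := by
    intro x hx
    rcases (isComp_compOf (D := D) (mem_univ x)).eq_or_disjoint hPc with h | h
    · exact h
    · exact absurd hx (Set.disjoint_left.1 h (mem_compOf (mem_univ x)))
  obtain ⟨v, hv⟩ := IsComp.ne hPc
  rcases hP.cover v with ⟨K, hK, hvK⟩ | ⟨Z, hZ, hvZ⟩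
  · exact Or.inl ⟨v, ⟨K, hK, hvK⟩, heq v hv⟩
  · right
    have hZP : Z ⊆ P := by
      by_contra hcon
      obtain ⟨u, hu, w, hw, huw⟩ := hP.zcc Z hZ (Z ∩ P) inter_subset_left ⟨v, hvZ, hv⟩
        (fun he => hcon (by rw [← he]; exact inter_subset_right))
      exact hw.2 ⟨hw.1, IsComp.closed hPc u hu.2 w trivial (hD Z hZ u hu.1 w hw.1 huw)⟩
    refine ⟨Z, hZ, ?_⟩
    ext x
    simp only [mem_ofPred_eq]
    constructor
    · rintro ⟨z, hz, hx⟩
      rwa [heq z (hZP hz)] at hx
    · intro hx
      exact ⟨v, hvZ, by rwa [heq v hv]⟩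

theorem finite_step [Nonempty V] (hlf : ∀ v, (G.neighborSet v).Finite) (h4 : Four G)
    {Ks Zs : Set (Set V)} (hP : Part G Ks Zs) : ∃ I, StepOut G Ks Zs I := by
  classical
  obtain ⟨y⟩ : Nonempty V := inferInstance
  have hEf := hP.inE_finite
  set E : Finset (Sym2 V) := hEf.toFinset with hEdef
  have hE : ∀ e, e ∈ E ↔ e ∈ inE G Zs := fun e => hEf.mem_toFinset
  obtain ⟨I, hIE, hI1, hI2⟩ := disjoint_bases E (lrk (evec (psi1 Ks Zs))) (lrk (evec (psi2 Zs)))
    (isRank_lrk _) (isRank_lrk _) (by
      intro A hA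
      let D : SimpleGraph V := G.deleteEdges ((E \ A : Finset (Sym2 V)) : Set (Sym2 V))
      have hDdef : ∀ u v, D.Adj u v ↔ G.Adj u v ∧ s(u, v) ∉ E \ A := fun u v => by
        simp only [D, SimpleGraph.deleteEdges_adj, Finset.mem_coe]
      have hDG : D ≤ G := SimpleGraph.deleteEdges_le _
      obtain ⟨hr, hfr⟩ := fr_le_two_mul (G := G) (D := D) (F := E \ A) (by
        intro u v h1 h2
        by_contra h3
        exact h2 ((hDdef u v).2 ⟨h1, h3⟩))
      have hcl := comps_finite hP (D := D) (by
        intro Z hZ u hu v hv huv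
        refine (hDdef u v).2 ⟨huv, fun h => ?_⟩
        rw [Finset.mem_sdiff, hE, mem_inE] at h
        exact h.1.2 Z hZ ⟨hu, hv⟩)
      have hPs : ∀ P, P ∈ hcl.toFinset ↔ IsComp D univ P := fun P => hcl.mem_toFinset
      have hPKf : {K | K ∈ Ks ∧ ¬ CC D K}.Finite := hP.kfin.subset fun K h => h.1
      have hPK : ∀ K, K ∈ hPKf.toFinset ↔ K ∈ Ks ∧ ¬ CC D K := fun K => hPKf.mem_toFinset
      have t1 := count_ineq hlf h4 hP hDG hr hPs hPK y
      have t2 := rank2_bound hP hE hDdef hPs
      have t3 := rank1_bound hP hE hDdef hPs hPK y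
      omega)
  refine ⟨(I : Set (Sym2 V)), ?_, ?_, ?_⟩
  · intro K hK S hS hne hneq
    by_contra hcon
    push Not at hcon
    obtain ⟨u, hu, v, hv, huv⟩ := (hP.kte K hK).cc S hS hne hneq
    have huE : s(u, v) ∈ E := by
      rw [hE, mem_inE]
      exact ⟨huv, fun Z hZ h => Set.disjoint_left.1 (hP.kz K hK Z hZ) (hS hu) h.1⟩
    have h1 := mem_span_of_lrk_eq _ hIE hI1 huE
    rw [← psi_mem (psi1_anti Ks Zs), psi1_pos ⟨K, hK, hS hu, hv.1⟩] at h1
    let g : (V ⊕ Set V) → ℚ := fun w => match w with
      | Sum.inl x => if x ∈ S then 1 else 0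
      | Sum.inr _ => 0
    have h2 := fnl_zero g (psi1_anti Ks Zs) (by
      intro a b hab
      by_cases hs : SC Ks a b
      · rw [psi1_pos hs, map_sub, hl, hl, fnl_single, fnl_single]
        obtain ⟨K', hK', ha, hb⟩ := hs
        have habG : G.Adj a b := ((mem_inE.1 ((hE _).1 (hIE hab))).1)
        simp only [g]
        by_cases haS : a ∈ S
        · by_cases hbS : b ∈ S
          · rw [if_pos haS, if_pos hbS, sub_self]
          · exfalso
            have : K = K' := by
              by_contra hne'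
              exact Set.disjoint_left.1 (hP.kk K hK K' hK' hne') (hS haS) ha
            subst this
            exact hcon a haS b ⟨hb, hbS⟩ habG hab
        · by_cases hbS : b ∈ S
          · exfalso
            have : K = K' := by
              by_contra hne'
              exact Set.disjoint_left.1 (hP.kk K hK K' hK' hne') (hS hbS) hb
            subst this
            refine hcon b hbS a ⟨ha, haS⟩ habG.symm ?_
            rw [Sym2.eq_swap]; exact hab
          · rw [if_neg haS, if_neg hbS, sub_self]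
      · rw [psi1_neg hs, map_sub, hrr, hrr, fnl_single, fnl_single]
        simp only [g, sub_self]) h1
    rw [map_sub, hl, hl, fnl_single, fnl_single] at h2
    simp only [g] at h2
    rw [if_pos hu, if_neg hv.2] at h2
    norm_num at h2
  · intro S hne hSu hcK hcZ
    by_contra hcon
    push Not at hcon
    obtain ⟨u, hu, v, hv, huv⟩ := h4.cc S (subset_univ _) hne hSu
    have huE : s(u, v) ∈ E := by
      rw [hE, mem_inE]
      refine ⟨huv, fun Z hZ h => ?_⟩
      rcases hcZ Z hZ with h' | h'
      · exact hv.2 (h' h.2)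
      · exact Set.disjoint_left.1 h' h.1 hu
    have hnsw : ¬ SC Ks u v := by
      rintro ⟨K, hK, h1, h2⟩
      rcases hcK K hK with h | h
      · exact hv.2 (h h2)
      · exact Set.disjoint_left.1 h h1 hu
    have h1 := mem_span_of_lrk_eq _ hIE hI1 huE
    rw [← psi_mem (psi1_anti Ks Zs), psi1_neg hnsw] at h1
    let g : (V ⊕ Set V) → ℚ := fun w => match w with
      | Sum.inl _ => 0
      | Sum.inr Q => if Q ⊆ S then 1 else 0
    have hg : ∀ x, fnl g (hrr Ks Zs x) = if x ∈ S then 1 else 0 := by
      intro x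
      rw [hrr, fnl_single]
      simp only [g]
      by_cases hx : x ∈ S
      · rw [if_pos hx, if_pos ((q1_sub hcZ hcK x).2 hx)]
      · rw [if_neg hx, if_neg (fun h => hx ((q1_sub hcZ hcK x).1 h))]
    have h2 := fnl_zero g (psi1_anti Ks Zs) (by
      intro a b hab
      by_cases hs : SC Ks a b
      · rw [psi1_pos hs, map_sub, hl, hl, fnl_single, fnl_single]
        simp only [g, sub_self]
      · rw [psi1_neg hs, map_sub, hg, hg]
        have habG : G.Adj a b := ((mem_inE.1 ((hE _).1 (hIE hab))).1)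
        by_cases haS : a ∈ S
        · by_cases hbS : b ∈ S
          · rw [if_pos haS, if_pos hbS, sub_self]
          · exact absurd hab (hcon a haS b hbS habG)
        · by_cases hbS : b ∈ S
          · refine absurd ?_ (hcon b hbS a haS habG.symm)
            rw [Sym2.eq_swap]; exact hab
          · rw [if_neg haS, if_neg hbS, sub_self]) h1
    rw [map_sub, hg, hg, if_pos hu, if_neg hv.2] at h2
    norm_num at h2
  · intro S hne hSu hcZ
    by_contra hcon
    push Not at hcon
    obtain ⟨u, hu, v, hv, huv⟩ := h4.cc S (subset_univ _) hne hSu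
    have huE : s(u, v) ∈ E := by
      rw [hE, mem_inE]
      refine ⟨huv, fun Z hZ h => ?_⟩
      rcases hcZ Z hZ with h' | h'
      · exact hv.2 (h' h.2)
      · exact Set.disjoint_left.1 h' h.1 hu
    have h1 := mem_span_of_lrk_eq _ Finset.sdiff_subset hI2 huE
    rw [← psi_mem (psi2_anti Zs)] at h1
    let g : Set V → ℚ := fun Q => if Q ⊆ S then 1 else 0
    have hg : ∀ x, fnl g (vec2 Zs x) = if x ∈ S then 1 else 0 := by
      intro x
      rw [vec2, fnl_single]
      simp only [g]
      by_cases hx : x ∈ S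
      · rw [if_pos hx, if_pos ((q2_sub hcZ x).2 hx)]
      · rw [if_neg hx, if_neg (fun h => hx ((q2_sub hcZ x).1 h))]
    have h2 := fnl_zero g (psi2_anti Zs) (by
      intro a b hab
      rw [Finset.mem_coe, Finset.mem_sdiff] at hab
      have habG : G.Adj a b := ((mem_inE.1 ((hE _).1 hab.1)).1)
      rw [psi2, map_sub, hg, hg]
      by_cases haS : a ∈ S
      · by_cases hbS : b ∈ S
        · rw [if_pos haS, if_pos hbS, sub_self]
        · exact absurd (hcon a haS b hbS habG) (by simpa using hab.2)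
      · by_cases hbS : b ∈ S
        · refine absurd (hcon b hbS a haS habG.symm) ?_
          rw [Sym2.eq_swap]
          simpa using hab.2
        · rw [if_neg haS, if_neg hbS, sub_self]) h1
    rw [psi2, map_sub, hg, hg, if_pos hu, if_neg hv.2] at h2
    norm_num at h2

end Pool.H14.UE
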