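import Pool.Agent.Helper14.UE.Good
import Pool.Agent.Helper14.UE.BlowB
import Pool.Agent.Helper66.TG.Deg

/-!
PIECE UE-10: the final theorem.

PROOF. `te_of_isEdgeConnected`: as `four_of_isEdgeConnected` in `Pool/Agent/Helper66/HC/OneEnd.lean`, for the induced graph.
`hb_of`: the exceptional pairs are mapped to the exceptional edges by `p ↦ s(p.1, p.2)`, which has finite fibres.
`main`: copy of `Pool.H66.TG.main` (file `Pool/Agent/Helper66/TG/Deg.lean`) where `exists_good2 hBlf hB4 hBe` is replaced by `exists_good2 hBlf hB4 (hb_blow hc hlf hB)`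
(here `exists_good2` of `UE/Good`).
-/

open Set

namespace Pool.H14.UE

open Pool.H66.HC Pool.H66.TG

universe u

variable {V : Type u} {G : SimpleGraph V}

lemma te_of_isEdgeConnected (hlf : ∀ v, (G.neighborSet v).Finite) {W : Finset V}
    (h : (G.induce (W : Set V)).IsEdgeConnected 3) : TE G (W : Set V) := by
  classical
  intro A hA hne hneq
  by_contra hcon
  push Not at hcon
  obtain ⟨u, hu⟩ := hne
  obtain ⟨v, hv, hv'⟩ : ∃ v ∈ (W : Set V), v ∉ A := by
    by_contra hc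
    push Not at hc
    exact hneq (hA.antisymm hc)
  have hAf : A.Finite := W.finite_toSet.subset hA
  have hfin : (prs G A ((W : Set V) \ A)).Finite := prs_finite hlf hAf _
  set s : Set (Sym2 ↥(W : Set V)) := (fun p : ↥(W : Set V) × ↥(W : Set V) => s(p.1, p.2)) ''
    {p | p.1.1 ∈ A ∧ p.2.1 ∉ A ∧ G.Adj p.1.1 p.2.1} with hs
  have h1 : s.encard < (3 : ℕ) := by
    refine (Set.encard_image_le _ _).trans_lt ?_
    have hinj : Function.Injective
        (fun p : ↥(W : Set V) × ↥(W : Set V) => ((p.1 : V), (p.2 : V))) := by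
      rintro ⟨a, b⟩ ⟨a', b'⟩ hab
      simp only [Prod.mk.injEq] at hab
      exact Prod.ext (Subtype.ext hab.1) (Subtype.ext hab.2)
    rw [← hinj.encard_image]
    have h2 : (fun p : ↥(W : Set V) × ↥(W : Set V) => ((p.1 : V), (p.2 : V))) ''
        {p | p.1.1 ∈ A ∧ p.2.1 ∉ A ∧ G.Adj p.1.1 p.2.1} ⊆ prs G A ((W : Set V) \ A) := by
      rintro _ ⟨p, ⟨ha, hb, hab⟩, rfl⟩
      exact ⟨ha, ⟨p.2.2, hb⟩, hab⟩
    refine (Set.encard_le_encard h2).trans_lt ?_
    rw [← hfin.cast_ncard_eq]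
    unfold ce at hcon
    exact_mod_cast hcon
  obtain ⟨p⟩ := h ⟨u, hA hu⟩ ⟨v, hv⟩ h1
  obtain ⟨d, hd, hd1, hd2⟩ := p.exists_boundary_dart {x : (W : Set V) | x.1 ∈ A} hu hv'
  have := d.adj
  rw [SimpleGraph.deleteEdges_adj] at this
  exact this.2 ⟨(d.fst, d.snd), ⟨hd1, hd2, this.1⟩, rfl⟩

lemma hb_of (hlf : ∀ v, (G.neighborSet v).Finite)
    (h : ∀ K : Finset V, {e | e ∈ G.edgeSet ∧ ¬ ∃ W : Finset V, Disjoint W K ∧
      (∀ v ∈ e, v ∈ W) ∧ (G.induce (W : Set V)).IsEdgeConnected 3}.Finite) : HB G := by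
  classical
  intro K hK
  have h1 := h hK.toFinset
  have h2 : ((fun p : V × V => s(p.1, p.2)) ⁻¹' {e | e ∈ G.edgeSet ∧ ¬ ∃ W : Finset V,
      Disjoint W hK.toFinset ∧ (∀ v ∈ e, v ∈ W) ∧
      (G.induce (W : Set V)).IsEdgeConnected 3}).Finite := by
    refine h1.preimage' ?_
    intro e _
    induction e using Sym2.ind with
    | _ a b =>
      refine (Set.toFinite ({(a, b), (b, a)} : Set (V × V))).subset ?_
      rintro ⟨x, y⟩ hxy
      rcases Sym2.eq_iff.1 (show s(x, y) = s(a, b) from hxy) with ⟨rfl, rfl⟩ | ⟨rfl, rfl⟩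
      · exact Or.inl rfl
      · exact Or.inr rfl
  refine h2.subset ?_
  rintro ⟨x, y⟩ ⟨hxy, hn⟩
  refine ⟨hxy, fun hW => hn ?_⟩
  obtain ⟨W, hd, hm, hc⟩ := hW
  refine ⟨W, W.finite_toSet, ?_, te_of_isEdgeConnected hlf hc, hm x (by simp), hm y (by simp)⟩
  rw [Set.disjoint_left]
  intro z hz hzK
  exact Finset.disjoint_left.1 hd hz (hK.mem_toFinset.2 hzK)

theorem main [Infinite V] (hG : G.Connected) (hlf : ∀ v, (G.neighborSet v).Finite)
    (hK : KConn 4 G.lineGraph)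
    (h3 : ∀ v, (G.neighborSet v).ncard = 3 → ∃ a d, G.Adj v a ∧ G.Adj v d ∧ G.Adj a d)
    (hB : HB G) : HasHamiltonCircle G.lineGraph := by
  classical
  obtain ⟨c, y, hcy⟩ := exists_cy hG hlf hK h3
  let D : Set V := {v | (G.neighborSet v).ncard = 3}
  have hc : Ctr G c := by
    refine ⟨?_, ?_⟩
    · intro v
      have h4 : 4 ≤ (G.neighborSet (c v)).ncard := by
        rcases hcy v with ⟨h1, h2⟩ | ⟨_, _, h, _⟩ | ⟨_, _, h⟩
        · rw [h2]; exact h1
        · exact h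
        · exact h
      rcases hcy (c v) with ⟨_, h⟩ | ⟨h, _⟩ | ⟨h, _⟩
      · exact h
      · omega
      · omega
    · intro v hv
      rcases hcy v with ⟨_, h⟩ | ⟨_, h, _⟩ | ⟨_, h, _⟩
      · exact absurd h hv
      · exact h.ad
      · exact h
  have hdeg : ∀ v, c v = v → 4 ≤ (G.neighborSet v).ncard := by
    intro v hv
    rcases hcy v with ⟨h, _⟩ | ⟨_, _, h, _⟩ | ⟨_, _, h⟩
    · exact h
    · rwa [hv] at h
    · rwa [hv] at h
  have hfix : ∀ v, 4 ≤ (G.neighborSet v).ncard → c v = v := by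
    intro v hv
    rcases hcy v with ⟨_, h⟩ | ⟨h, _⟩ | ⟨h, _⟩
    · exact h
    · omega
    · omega
  have hB4 : Four (blow G c) := blow_four (hcut hlf hK hc hdeg) hc
  have hBlf := blow_lf hc hlf
  have : Infinite (V × Fin 5) := inferInstance
  obtain ⟨H, hH⟩ := Pool.H14.UE.exists_good2 hBlf hB4 (hb_blow hc hlf hB)
  obtain ⟨T', hT'1, hT'2⟩ := exists_even hH
  have hT'ev : Ev (blow G c) T' := fun X hX => hT'2 X hX
  have hT0 := T0_even hc hlf hT'ev
  have hD : ∀ v ∈ D, IsTri G v (y v) (c v) ∧ 3 ≤ (G.neighborSet (y v)).ncard := by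
    intro v hv
    have hv' : (G.neighborSet v).ncard = 3 := hv
    rcases hcy v with ⟨h, _⟩ | ⟨_, h, _, h'⟩ | ⟨h, _⟩
    · omega
    · exact ⟨h, h'⟩
    · omega
  obtain ⟨T, hT1, hT2, hT3⟩ := tri_all D y c (fun v hv => (hD v hv).1) hT0
  have hS : Sys G c y D H T := by
    refine ⟨hlf, hc, hH, fun v hv => (hD v hv).1, ?_, hT1, hT3, ?_, ?_, ?_⟩
    · intro v hv
      have := (hD v hv).2
      by_cases h : (G.neighborSet (y v)).ncard = 3
      · exact Or.inl h
      · exact Or.inr (hfix _ (by omega))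
    · intro v h1 h2
      by_contra hcon
      have h3' : (G.neighborSet v).ncard ≠ 3 := h2
      exact h1 (hfix v (by omega))
    · intro u w h
      have := deg_add hG hlf hK h
      by_cases h1 : 4 ≤ (G.neighborSet u).ncard
      · exact Or.inl (Or.inl (hfix u h1))
      · by_cases h2 : 4 ≤ (G.neighborSet w).ncard
        · exact Or.inr (Or.inl (hfix w h2))
        · exact Or.inl (Or.inr (show (G.neighborSet u).ncard = 3 by omega))
    · intro u w h hHadj hcc
      by_cases hex : ∃ v ∈ D, (⟨s(u, w), h⟩ : G.edgeSet) ∈ tE G v (y v) (c v)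
      · exact Or.inr hex
      · left
        push Not at hex
        rw [hT2 _ hex]
        left
        refine ⟨?_, ?_⟩
        · intro a d had
          rcases Sym2.eq_iff.1 had with ⟨rfl, rfl⟩ | ⟨rfl, rfl⟩
          · exact hcc
          · exact hcc.symm
        · apply hT'1
          rw [cop_eq (u := u) (w := w) rfl]
          exact hHadj
  refine theoremB hS hG.preconnected ?_
  -- three edges
  obtain ⟨a1, a2, ha, _, _⟩ := edge_out hG hlf (S := ∅) finite_empty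
  obtain ⟨b1, b2, hb, hb1, hb2⟩ := edge_out hG hlf (S := {a1, a2}) (Set.toFinite _)
  obtain ⟨d1, d2, hd, hd1, hd2⟩ := edge_out hG hlf (S := {a1, a2, b1, b2}) (Set.toFinite _)
  simp only [mem_insert_iff, mem_singleton_iff, not_or] at hb1 hb2 hd1 hd2
  refine ⟨⟨s(a1, a2), ha⟩, ⟨s(b1, b2), hb⟩, ⟨s(d1, d2), hd⟩, ?_, ?_, ?_⟩
  · intro h
    rcases Sym2.eq_iff.1 (congrArg Subtype.val h) with ⟨h1, _⟩ | ⟨h1, _⟩
    · exact hb1.1 h1.symm
    · exact hb2.1 h1.symm
  · intro h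
    rcases Sym2.eq_iff.1 (congrArg Subtype.val h) with ⟨h1, _⟩ | ⟨h1, _⟩
    · exact hd1.2.2.1 h1.symm
    · exact hd2.2.2.1 h1.symm
  · intro h
    rcases Sym2.eq_iff.1 (congrArg Subtype.val h) with ⟨h1, _⟩ | ⟨h1, _⟩
    · exact hd1.1 h1.symm
    · exact hd2.1 h1.symm

end Pool.H14.UE
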