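import Pool.Agent.Helper14.UE.Part

/-!
PIECE UE-5: construction of the levels.

PROOF. `F n` finite sets with `F n ⊆ F (n + 1)` and union `univ` (from `Countable V`, e.g. by an injection into `ℕ`; only the statement that every `v` is in `F n` for
all large `n` is used).  By `IsZone.hull` (applied to `bdy G Z ∪ (Z ∩ F n)`, `IsZone.bdy_finite`) choose for all `n`, `Z`
a set `core n Z` with: if `IsZone G Z` then `core n Z ⊆ Z` is finite, nonempty, `TE`, and contains `bdy G Z` and `Z ∩ F n`.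
`Zn 0 := {C | ∃ x, x ∉ (∅ : Set V) ∧ C = cls G ∅ x}`,
`Zn (n + 1) := {C | ∃ Z ∈ Zn n, ∃ x ∈ Z, x ∉ core n Z ∧ C = cls G (core n Z) x}` (`Nat.rec`).
`isZone_cls`, `classes_fin` (finite unions), `cls_eq_or_disjoint`, `cls_inside` (`C ⊆ Z \ core n Z`), `mem_cls`.
`dis` for `n + 1`: two classes of the same `Z`: `cls_eq_or_disjoint`; of different zones: inside disjoint zones (induction).
`exh`: `v ∈ F m` for all `m ≥ n₀`; if `v` is in no core then `v` is in a zone of every level (`cov0`, `covs`), but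
`Z ∩ F n₀ ⊆ core n₀ Z` for the zone `Z ∋ v` of the level `n₀`.
-/

open Set

namespace Pool.H14.UE

open Pool.H66.HC

universe u

variable {V : Type u} {G : SimpleGraph V}

theorem exists_lv [Countable V] (hlf : ∀ v, (G.neighborSet v).Finite) (hc : CC G univ)
    (hB : HB G) : ∃ (Zn : ℕ → Set (Set V)) (core : ℕ → Set V → Set V), Lv G Zn core := by
  classical
  obtain ⟨f, hf⟩ := exists_injective_nat V
  have Ffin : ∀ n : ℕ, {v : V | f v ≤ n}.Finite := fun n =>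
    (Set.finite_Iic n).preimage hf.injOn
  have hcore : ∀ (n : ℕ) (Z : Set V), ∃ W : Set V, IsZone G Z → (W ⊆ Z ∧ W.Finite ∧
      W.Nonempty ∧ TE G W ∧ bdy G Z ⊆ W ∧ Z ∩ {v : V | f v ≤ n} ⊆ W) := by
    intro n Z
    by_cases hZ : IsZone G Z
    · obtain ⟨W, h1, h2, h3, h4, h5⟩ := hZ.hull (bdy G Z ∪ (Z ∩ {v : V | f v ≤ n}))
        (union_subset (fun u hu => hu.1) inter_subset_left)
        (hZ.bdy_finite.union ((Ffin n).subset inter_subset_right))
      exact ⟨W, fun _ => ⟨h1, h2, h3, h5, subset_union_left.trans h4,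
        subset_union_right.trans h4⟩⟩
    · exact ⟨∅, fun h => absurd h hZ⟩
  choose core hcore using hcore
  let Zn : ℕ → Set (Set V) := fun n => Nat.rec {C | ∃ x, x ∉ (∅ : Set V) ∧ C = cls G ∅ x}
    (fun n P => {C | ∃ Z ∈ P, ∃ x ∈ Z, x ∉ core n Z ∧ C = cls G (core n Z) x}) n
  have Z0 : ∀ C, C ∈ Zn 0 ↔ ∃ x, x ∉ (∅ : Set V) ∧ C = cls G ∅ x := fun C => Iff.rfl
  have Zs : ∀ n C, C ∈ Zn (n + 1) ↔
      ∃ Z ∈ Zn n, ∃ x ∈ Z, x ∉ core n Z ∧ C = cls G (core n Z) x := fun n C => Iff.rfl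
  have hzone : ∀ n, ∀ Z ∈ Zn n, IsZone G Z := by
    intro n
    induction n with
    | zero =>
      intro Z hZ
      obtain ⟨x, hx, rfl⟩ := (Z0 Z).1 hZ
      exact isZone_cls hlf hB finite_empty hx
    | succ n ih =>
      intro C hC
      obtain ⟨Z, hZ, x, hx, hxc, rfl⟩ := (Zs n C).1 hC
      exact isZone_cls hlf hB (hcore n Z (ih Z hZ)).2.1 hxc
  have hc' : ∀ n, ∀ Z ∈ Zn n, core n Z ⊆ Z ∧ (core n Z).Finite ∧
      (core n Z).Nonempty ∧ TE G (core n Z) ∧ bdy G Z ⊆ core n Z ∧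
      Z ∩ {v : V | f v ≤ n} ⊆ core n Z := fun n Z hZ => hcore n Z (hzone n Z hZ)
  have hfin : ∀ n, (Zn n).Finite := by
    intro n
    induction n with
    | zero => exact classes_fin hlf hc hB finite_empty
    | succ n ih =>
      have h1 : Zn (n + 1) ⊆ ⋃ Z ∈ Zn n, {C | ∃ x, x ∉ core n Z ∧ C = cls G (core n Z) x} := by
        intro C hC
        obtain ⟨Z, hZ, x, hx, hxc, rfl⟩ := (Zs n C).1 hC
        simp only [mem_iUnion]
        exact ⟨Z, hZ, x, hxc, rfl⟩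
      exact (Set.Finite.biUnion ih fun Z hZ =>
        classes_fin hlf hc hB (hc' n Z hZ).2.1).subset h1
  have hpar : ∀ n, ∀ Z' ∈ Zn (n + 1), ∃ Z ∈ Zn n, Z' ⊆ Z \ core n Z := by
    intro n C hC
    obtain ⟨Z, hZ, x, hx, hxc, rfl⟩ := (Zs n C).1 hC
    exact ⟨Z, hZ, cls_inside (hc' n Z hZ).2.2.2.2.1 hx hxc⟩
  have hdis : ∀ n, ∀ Z ∈ Zn n, ∀ Z' ∈ Zn n, Z ≠ Z' → Disjoint Z Z' := by
    intro n
    induction n with
    | zero =>
      intro Z hZ Z' hZ' hne
      obtain ⟨x, hx, rfl⟩ := (Z0 Z).1 hZ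
      obtain ⟨y, hy, rfl⟩ := (Z0 Z').1 hZ'
      exact (cls_eq_or_disjoint hlf).resolve_left hne
    | succ n ih =>
      intro C hC C' hC' hne
      obtain ⟨Z, hZ, x, hx, hxc, rfl⟩ := (Zs n C).1 hC
      obtain ⟨Z', hZ', y, hy, hyc, rfl⟩ := (Zs n C').1 hC'
      by_cases h : Z = Z'
      · subst h
        exact (cls_eq_or_disjoint hlf).resolve_left hne
      · have h1 := cls_inside (hc' n Z hZ).2.2.2.2.1 hx hxc
        have h2 := cls_inside (hc' n Z' hZ').2.2.2.2.1 hy hyc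
        exact (ih Z hZ Z' hZ' h).mono (h1.trans sdiff_subset) (h2.trans sdiff_subset)
  have hcov0 : ∀ v, ∃ Z ∈ Zn 0, v ∈ Z := fun v =>
    ⟨cls G ∅ v, (Z0 _).2 ⟨v, notMem_empty v, rfl⟩, mem_cls (notMem_empty v)⟩
  have hcovs : ∀ n, ∀ Z ∈ Zn n, ∀ x ∈ Z, x ∉ core n Z → ∃ Z' ∈ Zn (n + 1), x ∈ Z' :=
    fun n Z hZ x hx hxc =>
      ⟨cls G (core n Z) x, (Zs n _).2 ⟨Z, hZ, x, hx, hxc, rfl⟩, mem_cls hxc⟩
  refine ⟨Zn, core, ?_⟩
  exact
    { fin := hfin
      zone := hzone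
      dis := hdis
      csub := fun n Z hZ => (hc' n Z hZ).1
      cfin := fun n Z hZ => (hc' n Z hZ).2.1
      cne := fun n Z hZ => (hc' n Z hZ).2.2.1
      cte := fun n Z hZ => (hc' n Z hZ).2.2.2.1
      cb := fun n Z hZ => (hc' n Z hZ).2.2.2.2.1
      cov0 := hcov0
      covs := hcovs
      par := hpar
      exh := by
        intro v
        by_contra hcon
        push Not at hcon
        have key : ∀ n, ∃ Z ∈ Zn n, v ∈ Z := by
          intro n
          induction n with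
          | zero => exact hcov0 v
          | succ n ih =>
            obtain ⟨Z, hZ, hv⟩ := ih
            exact hcovs n Z hZ v hv (hcon n Z hZ)
        obtain ⟨Z, hZ, hv⟩ := key (f v)
        exact hcon (f v) Z hZ ((hc' (f v) Z hZ).2.2.2.2.2 ⟨hv, le_refl (f v)⟩) }

end Pool.H14.UE
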