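import Pool.Agent.Helper14.UE.Lim
import Pool.Agent.Helper14.UE.Lvl

/-!
PIECE UE-8: the limit graph is good.

PROOF. `zone_cc`: let `A ⊆ Z` be nonempty, `A ≠ Z`, without `H`-edge between `A` and `Z \ A`.  By `walls` every core `core n Y`, `Y ∈ Zn n`, inside `Z` is
inside `A` or disjoint from `A`.  We may assume that `core m Z` is disjoint from `A` (otherwise exchange `A` and `Z \ A`; prove the statement first under
this assumption).  Let `n` be minimal such that there is `Y ∈ Zn n`, `Y ⊆ Z`, `m ≤ n`, with `core n Y ⊆ A` (exists: take `x ∈ A`, `hL.exh x`, the zone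
`Y ∋ x` meets `Z`: `anc_mem` (or `Z ⊆ Y \ core`, impossible since `x ∈ core n Y`, if `n < m`)); `n > m`.  `Y ⊆ Y' \ core (n-1) Y'` (`par`), `Y' ⊆ Z` (`anc_mem`), the core of `Y'` is
disjoint from `A` (minimality).  `S` := union of the `W ∈ Zn n` with `W ⊆ Y'` and `core n W ⊆ A`.  `cuts n S` (`S ≠ univ`: the core of `Y'` is not empty and
disjoint from `S`; the cores of the levels `< n` are disjoint from the zones of level `n`: `(hL.part hlf n).kz`) gives `u ∈ S`, `v ∉ S`, `H.Adj u v`.  `u ∈ W`, `u ∈ bdy G W ⊆ core n W ⊆ A`.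
`v ∈ Y'` (otherwise `u ∈ bdy G Y' ⊆ core (n-1) Y'`).  If `v ∈ core (n-1) Y'` then `v ∈ Z \ A`, contradiction.  Otherwise (`covs`) `v ∈ W'' ∈ Zn n`,
`W'' ⊆ Y'` (`par`, `dis`), `W''` is not one of the sets `W`, so its core is disjoint from `A`, and `v ∈ bdy G W'' ⊆ core n W''`.  Contradiction.
`univ_cc`: every zone of level 0 is inside `A` or disjoint from `A`; `cuts 0`.
`good2`: `conn` by `CC.preconnected` (`Pool/Agent/Helper66/HC/Limit.lean`).  `ef`: for `K` choose `n` with `K ⊆ ⋃₀ cores n` (`exh_fin`), `L` := the finite set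
`⋃₀ cores (n + 1)`; a vertex `u ∉ L` is in a zone `Z` of level `n`, a walk of `G - L` from `u` cannot leave `Z` (`bdy G Z ⊆ core n Z ⊆ L`); `Z` is disjoint
from `K`; `CC.reachable` in `H[Z]`.  `cut`: choose `n` such that all ends of the edges of `cutE G X` are in `⋃₀ cores n`; then every zone of level `n` is inside `X` or
disjoint from `X` (`IsZone.cc`, otherwise a cut edge inside the zone); `rest n X`.  Compare `LimOut.good2` in HC/Limit.
-/

open Set

namespace Pool.H14.UE

open Pool.H66.HC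

universe u

variable {V : Type u} {G H : SimpleGraph V} {Zn : ℕ → Set (Set V)} {core : ℕ → Set V → Set V}

/-- the statement for the side that does not contain the core of `Z` -/
private lemma zone_cc_aux (hlf : ∀ v, (G.neighborSet v).Finite) (hL : Lv G Zn core)
    (hH : LimOut G H Zn core) {m : ℕ} {Z : Set V} (hZ : Z ∈ Zn m) {A : Set V} (hA : A ⊆ Z)
    (hne : A.Nonempty) (hno : ∀ u ∈ A, ∀ v ∈ Z \ A, ¬ H.Adj u v)
    (hd : Disjoint (core m Z) A) : False := by
  classical
  -- cores inside `Z` are not split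
  have hcore : ∀ n, ∀ Y ∈ Zn n, core n Y ⊆ Z → core n Y ⊆ A ∨ Disjoint (core n Y) A := by
    intro n Y hY hYZ
    by_cases h : (core n Y ∩ A).Nonempty
    · left
      by_contra hcon
      obtain ⟨u, hu, v, hv, huv⟩ := hH.walls n Y hY (core n Y ∩ A) inter_subset_left h
        (fun he => hcon (by rw [← he]; exact inter_subset_right))
      exact hno u hu.2 v ⟨hYZ hv.1, fun hvA => hv.2 ⟨hv.1, hvA⟩⟩ huv
    · right
      rw [Set.disjoint_iff_inter_eq_empty]
      exact Set.not_nonempty_iff_eq_empty.1 h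
  have hex : ∃ n, m ≤ n ∧ ∃ Y ∈ Zn n, Y ⊆ Z ∧ core n Y ⊆ A := by
    obtain ⟨x, hx⟩ := hne
    obtain ⟨n, Y, hY, hxY⟩ := hL.exh x
    have hxY' := hL.csub n Y hY hxY
    have hmn : m ≤ n := by
      by_contra hcon
      push Not at hcon
      obtain ⟨Z', hZ', hsub⟩ := hL.anc hcon hZ
      have h1 := hsub (hA hx)
      have h2 : Z' = Y := by
        by_contra hne
        exact Set.disjoint_left.1 (hL.dis n Z' hZ' Y hY hne) h1.1 hxY'
      rw [h2] at h1
      exact h1.2 hxY
    have hYZ := hL.anc_mem hmn hZ hY ⟨x, hA hx, hxY'⟩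
    refine ⟨n, hmn, Y, hY, hYZ, ?_⟩
    rcases hcore n Y hY ((hL.csub n Y hY).trans hYZ) with h | h
    · exact h
    · exact absurd hx (Set.disjoint_left.1 h hxY)
  obtain ⟨hmn, Y, hY, hYZ, hYA⟩ := Nat.find_spec hex
  set n := Nat.find hex with hn
  have hmin : ∀ k, k < n → ¬ (m ≤ k ∧ ∃ Y ∈ Zn k, Y ⊆ Z ∧ core k Y ⊆ A) := fun k hk =>
    Nat.find_min hex hk
  have hmn' : m < n := by
    rcases Nat.eq_or_lt_of_le hmn with h | h
    · exfalso
      have hYm : Y ∈ Zn m := by rw [h]; exact hY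
      obtain ⟨x, hx⟩ := hL.cne n Y hY
      have h1 : Y = Z := by
        by_contra hne'
        exact Set.disjoint_left.1 (hL.dis m Y hYm Z hZ hne') (hL.csub n Y hY hx)
          (hYZ (hL.csub n Y hY hx))
      have hx' : x ∈ core m Z := by rw [h, ← h1]; exact hx
      exact Set.disjoint_left.1 hd hx' (hYA hx)
    · exact h
  obtain ⟨k, hk⟩ : ∃ k, n = k + 1 := ⟨n - 1, by omega⟩
  clear_value n
  subst hk
  obtain ⟨Y', hY', hYY'⟩ := hL.par k Y hY
  have hYne := (hL.zone _ Y hY).ne
  have hY'Z : Y' ⊆ Z := by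
    obtain ⟨x, hx⟩ := hYne
    exact hL.anc_mem (by omega) hZ hY' ⟨x, hYZ hx, (hYY' hx).1⟩
  have hY'd : Disjoint (core k Y') A := by
    rcases hcore k Y' hY' ((hL.csub k Y' hY').trans hY'Z) with h | h
    · exact absurd ⟨by omega, Y', hY', hY'Z, h⟩ (hmin k (Nat.lt_succ_self k))
    · exact h
  let S : Set V := {x | ∃ W ∈ Zn (k + 1), W ⊆ Y' \ core k Y' ∧ core (k + 1) W ⊆ A ∧ x ∈ W}
  have hPart := hL.part hlf (k + 1)
  have hSne : S.Nonempty := by
    obtain ⟨x, hx⟩ := hYne
    exact ⟨x, Y, hY, hYY', hYA, hx⟩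
  have hSu : S ≠ univ := by
    intro he
    obtain ⟨x, hx⟩ := hL.cne k Y' hY'
    have : x ∈ S := by rw [he]; trivial
    obtain ⟨W, _, hW, _, hxW⟩ := this
    exact (hW hxW).2 hx
  obtain ⟨u, ⟨W, hW, hWY, hWA, huW⟩, v, hv, huv⟩ := hH.cuts (k + 1) S hSne hSu (by
      intro K hK
      right
      rw [Set.disjoint_left]
      rintro x hx ⟨W, hW, _, _, hxW⟩
      exact Set.disjoint_left.1 (hPart.kz K hK W hW) hx hxW) (by
      intro Z' hZ'
      by_cases h : Z' ⊆ Y' \ core k Y' ∧ core (k + 1) Z' ⊆ A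
      · left
        exact fun x hx => ⟨Z', hZ', h.1, h.2, hx⟩
      · right
        rw [Set.disjoint_left]
        rintro x hx ⟨W, hW, h1, h2, hxW⟩
        have : W = Z' := by
          by_contra hne'
          exact Set.disjoint_left.1 (hL.dis _ W hW Z' hZ' hne') hxW hx
        rw [this] at h1 h2
        exact h ⟨h1, h2⟩)
  have hG : G.Adj u v := hH.le huv
  have hvW : v ∉ W := fun h => hv ⟨W, hW, hWY, hWA, h⟩
  have huA : u ∈ A := hWA (hL.cb _ W hW ⟨huW, v, hvW, hG⟩)
  have hvY' : v ∈ Y' := by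
    by_contra hcon
    exact (hWY huW).2 (hL.cb k Y' hY' ⟨(hWY huW).1, v, hcon, hG⟩)
  by_cases hvc : v ∈ core k Y'
  · exact hno u huA v ⟨hY'Z hvY', fun h => Set.disjoint_left.1 hY'd hvc h⟩ huv
  · obtain ⟨W', hW', hvW'⟩ := hL.covs k Y' hY' v hvY' hvc
    obtain ⟨Y'', hY'', hsub⟩ := hL.par k W' hW'
    have hYe : Y'' = Y' := by
      by_contra hne'
      exact Set.disjoint_left.1 (hL.dis k Y'' hY'' Y' hY' hne') (hsub hvW').1 hvY'
    rw [hYe] at hsub
    have hW'A : ¬ core (k + 1) W' ⊆ A := fun h => hv ⟨W', hW', hsub, h, hvW'⟩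
    have hW'Z : core (k + 1) W' ⊆ Z := fun x hx => hY'Z (hsub (hL.csub _ W' hW' hx)).1
    have hW'd := (hcore (k + 1) W' hW' hW'Z).resolve_left hW'A
    have huW' : u ∉ W' := by
      intro h
      have : W = W' := by
        by_contra hne'
        exact Set.disjoint_left.1 (hL.dis _ W hW W' hW' hne') huW h
      rw [this] at hvW
      exact hvW hvW'
    have hvc' : v ∈ core (k + 1) W' := hL.cb _ W' hW' ⟨hvW', u, huW', hG.symm⟩
    exact hno u huA v ⟨hY'Z hvY', fun h => Set.disjoint_left.1 hW'd hvc' h⟩ huv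

theorem zone_cc (hlf : ∀ v, (G.neighborSet v).Finite) (hL : Lv G Zn core)
    (hH : LimOut G H Zn core) {m : ℕ} {Z : Set V} (hZ : Z ∈ Zn m) : CC H Z := by
  intro A hA hne hneq
  by_contra hcon
  push Not at hcon
  by_cases h : (core m Z ∩ A).Nonempty
  · by_cases h' : core m Z ⊆ A
    · -- the other side
      have hne' : (Z \ A).Nonempty := by
        by_contra h0
        rw [Set.not_nonempty_iff_eq_empty, Set.sdiff_eq_empty] at h0
        exact hneq (hA.antisymm h0)
      refine zone_cc_aux hlf hL hH hZ (A := Z \ A) sdiff_subset hne' ?_ ?_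
      · intro u hu v hv huv
        refine hcon v ?_ u hu huv.symm
        by_contra hvA
        exact hv.2 ⟨hv.1, hvA⟩
      · rw [Set.disjoint_left]
        exact fun x hx hx' => hx'.2 (h' hx)
    · obtain ⟨u, hu, v, hv, huv⟩ := hH.walls m Z hZ (core m Z ∩ A) inter_subset_left h
        (fun he => h' (by rw [← he]; exact inter_subset_right))
      exact hcon u hu.2 v ⟨hL.csub m Z hZ hv.1, fun hvA => hv.2 ⟨hv.1, hvA⟩⟩ huv
  · refine zone_cc_aux hlf hL hH hZ hA hne hcon ?_
    rw [Set.disjoint_iff_inter_eq_empty]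
    exact Set.not_nonempty_iff_eq_empty.1 h

theorem univ_cc (hlf : ∀ v, (G.neighborSet v).Finite) (hL : Lv G Zn core)
    (hH : LimOut G H Zn core) : CC H univ := by
  intro A _ hne hneq
  by_contra hcon
  push Not at hcon
  obtain ⟨u, hu, v, hv, huv⟩ := hH.cuts 0 A hne hneq (by
      rintro K ⟨m, hm, _⟩
      exact absurd hm (Nat.not_lt_zero m)) (by
      intro Z hZ
      by_cases h : (Z ∩ A).Nonempty
      · left
        by_contra h'
        obtain ⟨u, hu, v, hv, huv⟩ := zone_cc hlf hL hH hZ (Z ∩ A) inter_subset_left h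
          (fun he => h' (by rw [← he]; exact inter_subset_right))
        exact hcon u hu.2 v ⟨trivial, fun hvA => hv.2 ⟨hv.1, hvA⟩⟩ huv
      · right
        rw [Set.disjoint_iff_inter_eq_empty]
        exact Set.not_nonempty_iff_eq_empty.1 h)
  exact hcon u hu v ⟨trivial, hv⟩ huv

theorem good2 (hlf : ∀ v, (G.neighborSet v).Finite) (hL : Lv G Zn core)
    (hH : LimOut G H Zn core) : Good2 G H := by
  classical
  have hUf : ∀ n, (⋃₀ cores Zn core n).Finite := fun n =>
    Set.Finite.sUnion (hL.part hlf n).kfin (hL.part hlf n).kf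
  refine ⟨hH.le, (univ_cc hlf hL hH).preconnected, ?_, ?_⟩
  · intro K
    obtain ⟨n, hn⟩ := hL.exh_fin K.finite_toSet
    have hmono : ⋃₀ cores Zn core n ⊆ ⋃₀ cores Zn core (n + 1) := by
      rintro x ⟨C, ⟨m, hm, Z, hZ, rfl⟩, hx⟩
      exact ⟨core m Z, ⟨m, by omega, Z, hZ, rfl⟩, hx⟩
    refine ⟨(hUf (n + 1)).toFinset, ?_, ?_⟩
    · intro x hx
      rw [Set.Finite.mem_toFinset]
      exact hmono (hn hx)
    · intro u v hu hv hu' hv' hr
      have hu2 : u ∉ ⋃₀ cores Zn core (n + 1) := fun h => hu (by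
        rw [Set.Finite.mem_toFinset]; exact h)
      obtain ⟨Z, hZ, huZ⟩ : ∃ Z ∈ Zn n, u ∈ Z := by
        rcases (hL.part hlf n).cover u with ⟨K', hK', h⟩ | h
        · exact absurd (hmono ⟨K', hK', h⟩) hu2
        · exact h
      have hstay : ∀ (a b : (((hUf (n + 1)).toFinset : Set V)ᶜ : Set V)),
          (G.induce (((hUf (n + 1)).toFinset : Set V)ᶜ)).Reachable a b → a.1 ∈ Z → b.1 ∈ Z := by
        rintro a b ⟨p⟩
        induction p with
        | nil => exact id
        | @cons a c b hac p ih =>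
          intro ha
          apply ih
          by_contra hc
          have h1 : a.1 ∈ core n Z := hL.cb n Z hZ ⟨ha, c.1, hc, hac⟩
          apply a.2
          rw [Finset.mem_coe, Set.Finite.mem_toFinset]
          exact ⟨core n Z, ⟨n, Nat.lt_succ_self n, Z, hZ, rfl⟩, h1⟩
      have hvZ : v ∈ Z := hstay _ _ hr huZ
      have h1 := (zone_cc hlf hL hH hZ).reachable huZ hvZ
      have hle : Z ≤ ((K : Set V)ᶜ : Set V) := by
        intro x hx hxK
        obtain ⟨C, hC, hxC⟩ := hn hxK
        exact Set.disjoint_left.1 ((hL.part hlf n).kz C hC Z hZ) hxC hx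
      exact h1.map (SimpleGraph.induceHomOfLE H hle).toHom
  · intro X hX hXc hfin
    have hKf : {v | ∃ e ∈ cutE G X, v ∈ e.1}.Finite := by
      refine (hfin.biUnion (t := fun e => {v | v ∈ e.1}) fun e _ => ?_).subset ?_
      · obtain ⟨e, he⟩ := e
        induction e using Sym2.ind with
        | _ a b =>
          refine ((finite_singleton b).insert a).subset ?_
          intro v hv
          rcases Sym2.mem_iff.1 hv with rfl | rfl
          · exact Or.inl rfl
          · exact Or.inr rfl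
      · rintro v ⟨e, he, hv⟩
        simp only [mem_iUnion]
        exact ⟨e, he, hv⟩
    obtain ⟨n, hn⟩ := hL.exh_fin hKf
    refine hH.rest n X hX (fun he => ?_) ?_
    · rw [he, Set.compl_univ] at hXc
      exact Set.not_nonempty_empty hXc
    · intro Z hZ
      by_cases h : (Z ∩ X).Nonempty
      · left
        by_contra h'
        obtain ⟨u, hu, v, hv, huv⟩ := (hL.zone n Z hZ).cc (Z ∩ X) inter_subset_left h
          (fun he => h' (by rw [← he]; exact inter_subset_right))
        have hvX : v ∉ X := fun h => hv.2 ⟨hv.1, h⟩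
        obtain ⟨C, hC, huC⟩ := hn ⟨⟨s(u, v), huv⟩, ⟨u, hu.2, v, hvX, rfl⟩, Sym2.mem_mk_left u v⟩
        exact Set.disjoint_left.1 ((hL.part hlf n).kz C hC Z hZ) huC hu.1
      · right
        rw [Set.disjoint_iff_inter_eq_empty]
        exact Set.not_nonempty_iff_eq_empty.1 h

/-- the main theorem before the tour -/
theorem exists_good2 [Nonempty V] (hlf : ∀ v, (G.neighborSet v).Finite) (h4 : Four G)
    (hB : HB G) : ∃ H, Good2 G H := by
  have hc : CC G univ := h4.cc
  have : Countable V := countable_of_locally_finite hlf (CC.preconnected hc)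
  obtain ⟨Zn, core, hL⟩ := exists_lv hlf hc hB
  obtain ⟨H, hH⟩ := exists_limit hlf h4 hL
  exact ⟨H, good2 hlf hL hH⟩

end Pool.H14.UE
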