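import Pool.Agent.Helper14.UE.Part

/-!
PIECE UE-6: the partitions of the levels.

PROOF. `anc`: induction on `n` with `par` (if `Z' ⊆ Z'' \ core`, `Z'' ∈ Zn n`, `m < n` use the induction hypothesis for `Z''`).
`cover`: induction on `n` (`cov0`, `covs`).  `anc_mem`: if a zone of level `n ≥ m` meets a zone `Z` of level `m` then it is inside `Z`
(`anc` and `dis`; for `n = m` `dis`).
`part`: `kk`: cores of the same level: `dis`, `csub`; of levels `m < n`: `anc`: `core n Z' ⊆ Z' ⊆ Z'' \ core m Z''`, `Z'' ∈ Zn m`, and `Z'' = Z` or disjoint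
from `Z`.  `kz` in the same way.  `efin`: a pair `(u, v)` of adjacent vertices which is not inside a zone of level `n`: `u` or `v` is in the finite set
`⋃₀ cores Zn core n` (finitely many pairs, `hlf`), or `u ∈ Z`, `v ∉ Z`, `Z ∈ Zn n` and `(u, v) ∈ prs G Z Zᶜ` (finite: `IsZone.bd`).
`exh_fin`: from `exh` and `cores` monotone.
-/

open Set

namespace Pool.H14.UE

open Pool.H66.HC

universe u

variable {V : Type u} {G : SimpleGraph V} {Zn : ℕ → Set (Set V)} {core : ℕ → Set V → Set V}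

lemma Lv.anc (hL : Lv G Zn core) {m n : ℕ} (h : m < n) {Z' : Set V} (hZ' : Z' ∈ Zn n) :
    ∃ Z ∈ Zn m, Z' ⊆ Z \ core m Z := by
  induction n generalizing Z' with
  | zero => omega
  | succ n ih =>
    obtain ⟨Z'', hZ'', hs⟩ := hL.par n Z' hZ'
    rcases Nat.lt_succ_iff_lt_or_eq.1 h with h1 | h1
    · obtain ⟨Z, hZ, hs'⟩ := ih h1 hZ''
      exact ⟨Z, hZ, (hs.trans sdiff_subset).trans hs'⟩
    · subst h1
      exact ⟨Z'', hZ'', hs⟩

lemma Lv.anc_mem (hL : Lv G Zn core) {m n : ℕ} (h : m ≤ n) {Z Z' : Set V} (hZ : Z ∈ Zn m)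
    (hZ' : Z' ∈ Zn n) (hne : (Z ∩ Z').Nonempty) : Z' ⊆ Z := by
  obtain ⟨x, hx, hx'⟩ := hne
  rcases Nat.lt_or_eq_of_le h with h1 | h1
  · obtain ⟨Z'', hZ'', hs⟩ := hL.anc h1 hZ'
    have he : Z'' = Z := by
      by_contra hcon
      exact Set.disjoint_left.1 (hL.dis m Z'' hZ'' Z hZ hcon) (hs hx').1 hx
    rw [← he]
    exact hs.trans sdiff_subset
  · subst h1
    have he : Z = Z' := by
      by_contra hcon
      exact Set.disjoint_left.1 (hL.dis m Z hZ Z' hZ' hcon) hx hx'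
    rw [he]

lemma Lv.cover (hL : Lv G Zn core) (n : ℕ) (v : V) :
    (∃ K ∈ cores Zn core n, v ∈ K) ∨ ∃ Z ∈ Zn n, v ∈ Z := by
  induction n with
  | zero => exact Or.inr (hL.cov0 v)
  | succ n ih =>
    rcases ih with ⟨K, ⟨m, hm, Z, hZ, hK⟩, hv⟩ | ⟨Z, hZ, hv⟩
    · exact Or.inl ⟨K, ⟨m, by omega, Z, hZ, hK⟩, hv⟩
    · by_cases hc : v ∈ core n Z
      · exact Or.inl ⟨core n Z, ⟨n, by omega, Z, hZ, rfl⟩, hc⟩
      · exact Or.inr (hL.covs n Z hZ v hv hc)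

private lemma core_core_aux (hL : Lv G Zn core) {m n : ℕ} (h : m < n) {Z Z' : Set V}
    (hZ : Z ∈ Zn m) (hZ' : Z' ∈ Zn n) : Disjoint (core m Z) Z' := by
  obtain ⟨Z'', hZ'', hs⟩ := hL.anc h hZ'
  rw [Set.disjoint_left]
  intro x hx hx'
  by_cases he : Z'' = Z
  · subst he
    exact (hs hx').2 hx
  · exact Set.disjoint_left.1 (hL.dis m Z'' hZ'' Z hZ he) (hs hx').1 (hL.csub m Z hZ hx)

theorem Lv.part (hlf : ∀ v, (G.neighborSet v).Finite) (hL : Lv G Zn core) (n : ℕ) :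
    Part G (cores Zn core n) (Zn n) := by
  have hkfin : (cores Zn core n).Finite := by
    have h1 : cores Zn core n ⊆ ⋃ m ∈ Set.Iio n, core m '' Zn m := by
      rintro K ⟨m, hm, Z, hZ, rfl⟩
      simp only [mem_iUnion]
      exact ⟨m, hm, Z, hZ, rfl⟩
    exact ((Set.finite_Iio n).biUnion fun m _ => (hL.fin m).image _).subset h1
  have hkf : ∀ K ∈ cores Zn core n, K.Finite := by
    rintro K ⟨m, hm, Z, hZ, rfl⟩
    exact hL.cfin m Z hZ
  refine ⟨hkfin, hL.fin n, hkf, ?_, ?_, fun Z hZ => (hL.zone n Z hZ).ne,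
    fun Z hZ => (hL.zone n Z hZ).cc, hL.cover n, ?_, hL.dis n, ?_, ?_⟩
  · rintro K ⟨m, hm, Z, hZ, rfl⟩
    exact hL.cne m Z hZ
  · rintro K ⟨m, hm, Z, hZ, rfl⟩
    exact hL.cte m Z hZ
  · rintro K ⟨m, hm, Z, hZ, rfl⟩ K' ⟨m', hm', Z', hZ', rfl⟩ hne
    rcases lt_trichotomy m m' with h | h | h
    · exact (core_core_aux hL h hZ hZ').mono_right (hL.csub m' Z' hZ')
    · subst h
      have hZZ : Z ≠ Z' := by
        rintro rfl
        exact hne rfl
      exact (hL.dis m Z hZ Z' hZ' hZZ).mono (hL.csub m Z hZ) (hL.csub m Z' hZ')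
    · exact ((core_core_aux hL h hZ' hZ).mono_right (hL.csub m Z hZ)).symm
  · rintro K ⟨m, hm, Z, hZ, rfl⟩ Z' hZ'
    exact core_core_aux hL hm hZ hZ'
  · have hU : (⋃₀ cores Zn core n).Finite := hkfin.sUnion hkf
    have h1 : {p : V × V | p.1 ∈ ⋃₀ cores Zn core n ∧ G.Adj p.1 p.2}.Finite := by
      have h2 : {p : V × V | p.1 ∈ ⋃₀ cores Zn core n ∧ G.Adj p.1 p.2} ⊆
          ⋃ u ∈ ⋃₀ cores Zn core n, (fun v => (u, v)) '' G.neighborSet u := by
        rintro ⟨u, v⟩ ⟨hu, huv⟩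
        simp only [mem_iUnion]
        exact ⟨u, hu, v, huv, rfl⟩
      exact (hU.biUnion fun u _ => (hlf u).image _).subset h2
    have h3 : (⋃ Z ∈ Zn n, prs G Z Zᶜ).Finite :=
      (hL.fin n).biUnion fun Z hZ => (hL.zone n Z hZ).bd
    refine (h1.union h3).subset ?_
    rintro ⟨u, v⟩ ⟨huv, hnot⟩
    rcases hL.cover n u with ⟨K, hK, hu⟩ | ⟨Z, hZ, hu⟩
    · exact Or.inl ⟨⟨K, hK, hu⟩, huv⟩
    · right
      simp only [mem_iUnion]
      exact ⟨Z, hZ, hu, fun hv => hnot Z hZ ⟨hu, hv⟩, huv⟩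

private lemma cores_mono {m n : ℕ} (h : m ≤ n) : cores Zn core m ⊆ cores Zn core n := by
  rintro K ⟨k, hk, Z, hZ, hK⟩
  exact ⟨k, by omega, Z, hZ, hK⟩

/-- a finite set is inside the union of the cores of the levels below some `n` -/
lemma Lv.exh_fin (hL : Lv G Zn core) {S : Set V} (hS : S.Finite) :
    ∃ n, S ⊆ ⋃₀ cores Zn core n := by
  induction S, hS using Set.Finite.induction_on with
  | empty => exact ⟨0, empty_subset _⟩
  | @insert x s _ _ ih =>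
    obtain ⟨n, hn⟩ := ih
    obtain ⟨m, Z, hZ, hx⟩ := hL.exh x
    refine ⟨max n (m + 1), ?_⟩
    rintro y (rfl | hy)
    · exact ⟨core m Z, ⟨m, by omega, Z, hZ, rfl⟩, hx⟩
    · obtain ⟨K, hK, hyK⟩ := hn hy
      exact ⟨K, cores_mono (le_max_left _ _) hK, hyK⟩

end Pool.H14.UE
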