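import Pool.Agent.Helper14.UE.Fin
import Pool.Agent.Helper14.UE.LvPart

/-!
PIECE UE-7: the limit (port of `Pool.H66.HC.exists_limit` in `Pool/Agent/Helper66/HC/Limit.lean`).

PROOF. `J n` from `finite_step` for `hL.part hlf n`; `H.Adj u v := G.Adj u v ∧ ∀ᶠ n in hyperfilter ℕ, s(u, v) ∈ J n`.
walls: the core `core m Z` is in `cores Zn core n` for `n > m`; the set `prs G S (core m Z \ S)` is finite.
cuts: if `S` is a union of parts of the level `m` then also of the level `n ≥ m`: a core `core k Z'`, `k ≥ m`, is inside `Z'`, which is inside a zone of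
level `m` (`anc`); a zone of level `n` is inside a zone of level `m`.  `prs G S Sᶜ` is finite: it is a subset of the set of `(hL.part hlf m).efin`.
rest: the same with `∉`.
-/

open Set Filter

namespace Pool.H14.UE

open Pool.H66.HC

universe u

variable {V : Type u} {G H : SimpleGraph V} {Zn : ℕ → Set (Set V)} {core : ℕ → Set V → Set V}

/-- the properties of the limit graph -/
structure LimOut (G H : SimpleGraph V) (Zn : ℕ → Set (Set V)) (core : ℕ → Set V → Set V) :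
    Prop where
  le : H ≤ G
  walls : ∀ m, ∀ Z ∈ Zn m, ∀ S ⊆ core m Z, S.Nonempty → S ≠ core m Z →
    ∃ u ∈ S, ∃ v ∈ core m Z \ S, H.Adj u v
  cuts : ∀ m, ∀ S : Set V, S.Nonempty → S ≠ univ →
    (∀ K ∈ cores Zn core m, K ⊆ S ∨ Disjoint K S) → (∀ Z ∈ Zn m, Z ⊆ S ∨ Disjoint Z S) →
    ∃ u ∈ S, ∃ v, v ∉ S ∧ H.Adj u v
  rest : ∀ m, ∀ S : Set V, S.Nonempty → S ≠ univ → (∀ Z ∈ Zn m, Z ⊆ S ∨ Disjoint Z S) →
    ∃ u ∈ S, ∃ v, v ∉ S ∧ G.Adj u v ∧ ¬ H.Adj u v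

private lemma ue7_zone (hL : Lv G Zn core) {m n : ℕ} (h : m ≤ n) {S : Set V}
    (hS : ∀ Z ∈ Zn m, Z ⊆ S ∨ Disjoint Z S) : ∀ Z ∈ Zn n, Z ⊆ S ∨ Disjoint Z S := by
  intro Z' hZ'
  rcases Nat.eq_or_lt_of_le h with h1 | h1
  · rw [← h1] at hZ'
    exact hS Z' hZ'
  · obtain ⟨Z, hZ, hsub⟩ := hL.anc h1 hZ'
    have h2 : Z' ⊆ Z := hsub.trans sdiff_subset
    rcases hS Z hZ with h3 | h3
    · exact Or.inl (h2.trans h3)
    · exact Or.inr (h3.mono_left h2)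

private lemma ue7_core (hL : Lv G Zn core) {m n : ℕ} {S : Set V}
    (hK : ∀ K ∈ cores Zn core m, K ⊆ S ∨ Disjoint K S)
    (hS : ∀ Z ∈ Zn m, Z ⊆ S ∨ Disjoint Z S) :
    ∀ K ∈ cores Zn core n, K ⊆ S ∨ Disjoint K S := by
  rintro K ⟨k, _, Z', hZ', rfl⟩
  rcases Nat.lt_or_ge k m with h1 | h1
  · exact hK _ ⟨k, h1, Z', hZ', rfl⟩
  · have h2 := hL.csub k Z' hZ'
    rcases ue7_zone hL h1 hS Z' hZ' with h3 | h3
    · exact Or.inl (h2.trans h3)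
    · exact Or.inr (h3.mono_left h2)

private lemma ue7_fin (hlf : ∀ v, (G.neighborSet v).Finite) (hL : Lv G Zn core) {m : ℕ}
    {S : Set V} (hS : ∀ Z ∈ Zn m, Z ⊆ S ∨ Disjoint Z S) : (prs G S Sᶜ).Finite := by
  refine (hL.part hlf m).efin.subset ?_
  rintro ⟨u, v⟩ ⟨hu, hv, huv⟩
  refine ⟨huv, ?_⟩
  rintro Z hZ ⟨h1, h2⟩
  rcases hS Z hZ with h3 | h3
  · exact hv (h3 h2)
  · exact Set.disjoint_left.1 h3 h1 hu

theorem exists_limit [Nonempty V] (hlf : ∀ v, (G.neighborSet v).Finite) (h4 : Four G)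
    (hL : Lv G Zn core) : ∃ H, LimOut G H Zn core := by
  classical
  choose J hJ using fun n : ℕ => finite_step hlf h4 (hL.part hlf n)
  let U : Ultrafilter ℕ := hyperfilter ℕ
  have hU : ∀ {p : ℕ → Prop}, (∀ᶠ n in atTop, p n) → ∀ᶠ n in (U : Filter ℕ), p n :=
    fun h => Nat.hyperfilter_le_atTop h
  let H : SimpleGraph V :=
    { Adj := fun u v => G.Adj u v ∧ ∀ᶠ n in (U : Filter ℕ), s(u, v) ∈ J n
      symm := ⟨fun u v h => ⟨h.1.symm, by rw [Sym2.eq_swap]; exact h.2⟩⟩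
      loopless := ⟨fun v h => G.loopless.irrefl v h.1⟩ }
  refine ⟨H, fun u v h => h.1, ?_, ?_, ?_⟩
  · intro m Z hZ S hS hne hneq
    have hfin : (prs G S (core m Z \ S)).Finite :=
      prs_finite hlf ((hL.cfin m Z hZ).subset hS) _
    have h1 : ∀ᶠ n in (U : Filter ℕ), ∃ p ∈ prs G S (core m Z \ S), s(p.1, p.2) ∈ J n := by
      refine hU (eventually_atTop.2 ⟨m + 1, fun n hn => ?_⟩)
      obtain ⟨u, hu, v, hv, h1, h2⟩ := (hJ n).walls (core m Z) ⟨m, by omega, Z, hZ, rfl⟩ S hS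
        hne hneq
      exact ⟨(u, v), ⟨hu, hv, h1⟩, h2⟩
    rw [Ultrafilter.eventually_exists_mem_iff hfin] at h1
    obtain ⟨⟨u, v⟩, ⟨hu, hv, h2⟩, h3⟩ := h1
    exact ⟨u, hu, v, hv, h2, h3⟩
  · intro m S hne hneu hK hZ
    have hfin : (prs G S Sᶜ).Finite := ue7_fin hlf hL hZ
    have h1 : ∀ᶠ n in (U : Filter ℕ), ∃ p ∈ prs G S Sᶜ, s(p.1, p.2) ∈ J n := by
      refine hU (eventually_atTop.2 ⟨m, fun n hn => ?_⟩)
      obtain ⟨u, hu, v, hv, h1, h2⟩ := (hJ n).cuts S hne hneu (ue7_core hL hK hZ)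
        (ue7_zone hL hn hZ)
      exact ⟨(u, v), ⟨hu, hv, h1⟩, h2⟩
    rw [Ultrafilter.eventually_exists_mem_iff hfin] at h1
    obtain ⟨⟨u, v⟩, ⟨hu, hv, h2⟩, h3⟩ := h1
    exact ⟨u, hu, v, hv, h2, h3⟩
  · intro m S hne hneu hZ
    have hfin : (prs G S Sᶜ).Finite := ue7_fin hlf hL hZ
    have h1 : ∀ᶠ n in (U : Filter ℕ), ∃ p ∈ prs G S Sᶜ, s(p.1, p.2) ∉ J n := by
      refine hU (eventually_atTop.2 ⟨m, fun n hn => ?_⟩)
      obtain ⟨u, hu, v, hv, h1, h2⟩ := (hJ n).rest S hne hneu (ue7_zone hL hn hZ)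
      exact ⟨(u, v), ⟨hu, hv, h1⟩, h2⟩
    rw [Ultrafilter.eventually_exists_mem_iff hfin] at h1
    obtain ⟨⟨u, v⟩, ⟨hu, hv, h2⟩, h3⟩ := h1
    refine ⟨u, hu, v, hv, h2, fun h => ?_⟩
    obtain ⟨n, hn1, hn2⟩ := (h3.and h.2).exists
    exact hn1 hn2

end Pool.H14.UE
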