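import Pool.Agent.Helper14.UE.Cls

/-! # Partitions into cores and zones: definitions and basic facts -/

open Set

namespace Pool.H14.UE

open Pool.H66.HC

universe u

variable {V : Type u} {G : SimpleGraph V}

/-- a finite partition of the vertex set into finite cores `Ks` and zones `Zs` -/
structure Part (G : SimpleGraph V) (Ks Zs : Set (Set V)) : Prop where
  kfin : Ks.Finite
  zfin : Zs.Finite
  kf : ∀ K ∈ Ks, K.Finite
  kne : ∀ K ∈ Ks, K.Nonempty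
  kte : ∀ K ∈ Ks, TE G K
  zne : ∀ Z ∈ Zs, Z.Nonempty
  zcc : ∀ Z ∈ Zs, CC G Z
  cover : ∀ v, (∃ K ∈ Ks, v ∈ K) ∨ ∃ Z ∈ Zs, v ∈ Z
  kk : ∀ K ∈ Ks, ∀ K' ∈ Ks, K ≠ K' → Disjoint K K'
  zz : ∀ Z ∈ Zs, ∀ Z' ∈ Zs, Z ≠ Z' → Disjoint Z Z'
  kz : ∀ K ∈ Ks, ∀ Z ∈ Zs, Disjoint K Z
  efin : {p : V × V | G.Adj p.1 p.2 ∧ ∀ Z ∈ Zs, ¬ (p.1 ∈ Z ∧ p.2 ∈ Z)}.Finite

/-- the edges that are not inside a zone -/
def inE (G : SimpleGraph V) (Zs : Set (Set V)) : Set (Sym2 V) :=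
  {e | e ∈ G.edgeSet ∧ ∀ Z ∈ Zs, ∃ v ∈ e, v ∉ Z}

lemma mem_inE {Zs : Set (Set V)} {u v : V} :
    s(u, v) ∈ inE G Zs ↔ G.Adj u v ∧ ∀ Z ∈ Zs, ¬ (u ∈ Z ∧ v ∈ Z) := by
  unfold inE
  simp only [mem_ofPred_eq, SimpleGraph.mem_edgeSet, Sym2.mem_iff]
  refine and_congr_right fun _ => forall_congr' fun Z => forall_congr' fun _ => ?_
  constructor
  · rintro ⟨w, rfl | rfl, hw⟩ h
    · exact hw h.1
    · exact hw h.2
  · intro h
    by_cases hu : u ∈ Z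
    · exact ⟨v, Or.inr rfl, fun hv => h ⟨hu, hv⟩⟩
    · exact ⟨u, Or.inl rfl, hu⟩

lemma Part.inE_finite {Ks Zs : Set (Set V)} (hP : Part G Ks Zs) : (inE G Zs).Finite := by
  refine (hP.efin.image fun p => s(p.1, p.2)).subset ?_
  intro e he
  induction e using Sym2.ind with
  | _ u v =>
    rw [mem_inE] at he
    exact ⟨(u, v), he, rfl⟩

open Classical in
/-- the vertex of the quotient by the zones -/
noncomputable def q2 (Zs : Set (Set V)) (v : V) : Set V :=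
  if h : ∃ Z ∈ Zs, v ∈ Z then h.choose else {v}

open Classical in
/-- the vertex of the quotient by the cores and the zones -/
noncomputable def q1 (Ks Zs : Set (Set V)) (v : V) : Set V :=
  if h : ∃ K ∈ Ks, v ∈ K then h.choose else q2 Zs v

section

variable {Ks Zs : Set (Set V)} (hP : Part G Ks Zs)

include hP

lemma q2_zone {Z : Set V} (hZ : Z ∈ Zs) {v : V} (hv : v ∈ Z) : q2 Zs v = Z := by
  classical
  have h : ∃ Z ∈ Zs, v ∈ Z := ⟨Z, hZ, hv⟩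
  unfold q2
  rw [dif_pos h]
  by_contra hne
  exact Set.disjoint_left.1 (hP.zz _ h.choose_spec.1 _ hZ hne) h.choose_spec.2 hv

lemma q1_core {K : Set V} (hK : K ∈ Ks) {v : V} (hv : v ∈ K) : q1 Ks Zs v = K := by
  classical
  have h : ∃ K ∈ Ks, v ∈ K := ⟨K, hK, hv⟩
  unfold q1
  rw [dif_pos h]
  by_contra hne
  exact Set.disjoint_left.1 (hP.kk _ h.choose_spec.1 _ hK hne) h.choose_spec.2 hv

lemma q1_zone {Z : Set V} (hZ : Z ∈ Zs) {v : V} (hv : v ∈ Z) : q1 Ks Zs v = Z := by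
  classical
  have h : ¬ ∃ K ∈ Ks, v ∈ K := by
    rintro ⟨K, hK, hvK⟩
    exact Set.disjoint_left.1 (hP.kz K hK Z hZ) hvK hv
  unfold q1
  rw [dif_neg h]
  exact q2_zone hP hZ hv

omit hP in
lemma mem_q2 (v : V) : v ∈ q2 Zs v := by
  classical
  unfold q2
  by_cases h : ∃ Z ∈ Zs, v ∈ Z
  · rw [dif_pos h]
    exact h.choose_spec.2
  · rw [dif_neg h]
    rfl

omit hP in
lemma mem_q1 (v : V) : v ∈ q1 Ks Zs v := by
  classical
  unfold q1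
  by_cases h : ∃ K ∈ Ks, v ∈ K
  · rw [dif_pos h]
    exact h.choose_spec.2
  · rw [dif_neg h]
    exact mem_q2 v

omit hP in
/-- a union of zones and of vertices outside the zones -/
lemma q2_sub {S : Set V} (hS : ∀ Z ∈ Zs, Z ⊆ S ∨ Disjoint Z S) (v : V) : q2 Zs v ⊆ S ↔ v ∈ S := by
  classical
  refine ⟨fun h => h (mem_q2 v), fun h => ?_⟩
  unfold q2
  by_cases hz : ∃ Z ∈ Zs, v ∈ Z
  · rw [dif_pos hz]
    rcases hS _ hz.choose_spec.1 with h1 | h1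
    · exact h1
    · exact absurd h (Set.disjoint_left.1 h1 hz.choose_spec.2)
  · rw [dif_neg hz]
    exact Set.singleton_subset_iff.2 h

omit hP in
/-- a union of cores and zones -/
lemma q1_sub {S : Set V} (hS : ∀ Z ∈ Zs, Z ⊆ S ∨ Disjoint Z S)
    (hS' : ∀ K ∈ Ks, K ⊆ S ∨ Disjoint K S) (v : V) : q1 Ks Zs v ⊆ S ↔ v ∈ S := by
  classical
  refine ⟨fun h => h (mem_q1 v), fun h => ?_⟩
  unfold q1
  by_cases hz : ∃ K ∈ Ks, v ∈ K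
  · rw [dif_pos hz]
    rcases hS' _ hz.choose_spec.1 with h1 | h1
    · exact h1
    · exact absurd h (Set.disjoint_left.1 h1 hz.choose_spec.2)
  · rw [dif_neg hz]
    exact (q2_sub hS v).2 h

end

/-- in the same core -/
def SC (Ks : Set (Set V)) (u v : V) : Prop := ∃ K ∈ Ks, u ∈ K ∧ v ∈ K

lemma SC_comm {Ks : Set (Set V)} {u v : V} : SC Ks u v ↔ SC Ks v u := by
  constructor <;> rintro ⟨K, hK, h1, h2⟩ <;> exact ⟨K, hK, h2, h1⟩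

noncomputable def vec2 (Zs : Set (Set V)) (v : V) : Set V →₀ ℚ := Finsupp.single (q2 Zs v) 1

noncomputable def psi2 (Zs : Set (Set V)) (u v : V) : Set V →₀ ℚ := vec2 Zs u - vec2 Zs v

noncomputable def hl (v : V) : (V ⊕ Set V) →₀ ℚ := Finsupp.single (Sum.inl v) 1

noncomputable def hrr (Ks Zs : Set (Set V)) (v : V) : (V ⊕ Set V) →₀ ℚ :=
  Finsupp.single (Sum.inr (q1 Ks Zs v)) 1

open Classical in
noncomputable def psi1 (Ks Zs : Set (Set V)) (u v : V) : (V ⊕ Set V) →₀ ℚ :=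
  if SC Ks u v then hl u - hl v else hrr Ks Zs u - hrr Ks Zs v

lemma psi2_anti (Zs : Set (Set V)) (u v : V) : psi2 Zs u v = - psi2 Zs v u := by
  unfold psi2; abel

lemma psi1_anti (Ks Zs : Set (Set V)) (u v : V) : psi1 Ks Zs u v = - psi1 Ks Zs v u := by
  unfold psi1
  by_cases h : SC Ks u v
  · rw [if_pos h, if_pos (SC_comm.1 h)]; abel
  · rw [if_neg h, if_neg (fun h' => h (SC_comm.1 h'))]; abel

lemma psi1_pos {Ks Zs : Set (Set V)} {u v : V} (h : SC Ks u v) :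
    psi1 Ks Zs u v = hl u - hl v := by
  unfold psi1; rw [if_pos h]

lemma psi1_neg {Ks Zs : Set (Set V)} {u v : V} (h : ¬ SC Ks u v) :
    psi1 Ks Zs u v = hrr Ks Zs u - hrr Ks Zs v := by
  unfold psi1; rw [if_neg h]

/-- what the finite step gives -/
structure StepOut (G : SimpleGraph V) (Ks Zs : Set (Set V)) (I : Set (Sym2 V)) : Prop where
  walls : ∀ K ∈ Ks, ∀ S ⊆ K, S.Nonempty → S ≠ K →
    ∃ u ∈ S, ∃ v ∈ K \ S, G.Adj u v ∧ s(u, v) ∈ I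
  cuts : ∀ S : Set V, S.Nonempty → S ≠ univ → (∀ K ∈ Ks, K ⊆ S ∨ Disjoint K S) →
    (∀ Z ∈ Zs, Z ⊆ S ∨ Disjoint Z S) → ∃ u ∈ S, ∃ v, v ∉ S ∧ G.Adj u v ∧ s(u, v) ∈ I
  rest : ∀ S : Set V, S.Nonempty → S ≠ univ → (∀ Z ∈ Zs, Z ⊆ S ∨ Disjoint Z S) →
    ∃ u ∈ S, ∃ v, v ∉ S ∧ G.Adj u v ∧ s(u, v) ∉ I

/-- the system of levels -/
structure Lv (G : SimpleGraph V) (Zn : ℕ → Set (Set V)) (core : ℕ → Set V → Set V) : Prop where
  fin : ∀ n, (Zn n).Finite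
  zone : ∀ n, ∀ Z ∈ Zn n, IsZone G Z
  dis : ∀ n, ∀ Z ∈ Zn n, ∀ Z' ∈ Zn n, Z ≠ Z' → Disjoint Z Z'
  csub : ∀ n, ∀ Z ∈ Zn n, core n Z ⊆ Z
  cfin : ∀ n, ∀ Z ∈ Zn n, (core n Z).Finite
  cne : ∀ n, ∀ Z ∈ Zn n, (core n Z).Nonempty
  cte : ∀ n, ∀ Z ∈ Zn n, TE G (core n Z)
  cb : ∀ n, ∀ Z ∈ Zn n, bdy G Z ⊆ core n Z
  cov0 : ∀ v, ∃ Z ∈ Zn 0, v ∈ Z
  covs : ∀ n, ∀ Z ∈ Zn n, ∀ x ∈ Z, x ∉ core n Z → ∃ Z' ∈ Zn (n + 1), x ∈ Z'
  par : ∀ n, ∀ Z' ∈ Zn (n + 1), ∃ Z ∈ Zn n, Z' ⊆ Z \ core n Z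
  /-- every vertex is in a core -/
  exh : ∀ v, ∃ n, ∃ Z ∈ Zn n, v ∈ core n Z

/-- the cores of the levels below `n` -/
def cores (Zn : ℕ → Set (Set V)) (core : ℕ → Set V → Set V) (n : ℕ) : Set (Set V) :=
  {K | ∃ m < n, ∃ Z ∈ Zn m, K = core m Z}

end Pool.H14.UE
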